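import Pool.Agent.U312.SV.One

/-!
# The smallest singular value
-/

set_option autoImplicit false
open MeasureTheory Measure Set Metric Matrix ProbabilityTheory
open scoped ENNReal NNReal
open Pool.Agent.H892R2.Proj Pool.Agent.H992R2

namespace Pool.Agent.U312.SV

variable {n : ℕ}

/-- An elementary inequality. -/
lemma elem {x : ℝ} (hx : 0 ≤ x) : 1 - x ≤ Real.exp (-(x ^ 2 / 2) - x) := by
  by_cases h1 : 1 ≤ x
  · exact (by linarith : 1 - x ≤ 0).trans (Real.exp_pos _).le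
  · push Not at h1
    set f : ℝ → ℝ := fun y => (1 - y) * Real.exp (y ^ 2 / 2 + y) with hf
    have hd : ∀ y : ℝ, HasDerivAt f (-(y ^ 2) * Real.exp (y ^ 2 / 2 + y)) y := by
      intro y
      have h2 : HasDerivAt (fun y : ℝ => 1 - y) (-1) y := (hasDerivAt_id y).const_sub 1
      have h3 : HasDerivAt (fun y : ℝ => y ^ 2 / 2 + y) (y + 1) y := by
        have := (((hasDerivAt_id y).pow 2).div_const 2).add (hasDerivAt_id y)
        refine (this.congr_deriv ?_)
        simp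
      have h4 := h2.mul h3.exp
      refine h4.congr_deriv ?_
      ring
    have hcont : Continuous f := by
      rw [hf]
      fun_prop
    have hanti : AntitoneOn f (Icc 0 x) := by
      refine antitoneOn_of_deriv_nonpos (convex_Icc 0 x) hcont.continuousOn
        (fun y _ => (hd y).differentiableAt.differentiableWithinAt) fun y _ => ?_
      rw [(hd y).deriv]
      have := Real.exp_pos (y ^ 2 / 2 + y)
      nlinarith [sq_nonneg y, mul_nonneg (sq_nonneg y) this.le]
    have h5 := hanti (left_mem_Icc.mpr hx) (right_mem_Icc.mpr hx) hx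
    have h6 : f 0 = 1 := by simp [hf]
    rw [h6] at h5
    have h7 : Real.exp (-(x ^ 2 / 2) - x) = (Real.exp (x ^ 2 / 2 + x))⁻¹ := by
      rw [← Real.exp_neg]
      congr 1
      ring
    rw [h7, ← one_div, le_div_iff₀ (Real.exp_pos _)]
    exact h5

lemma sq_gauss : ∫⁻ t : ℝ, ENNReal.ofReal (t * t) ∂gaussianReal 0 1 = 1 := by
  have h1 : Var[fun x : ℝ => x; gaussianReal 0 1] = 1 := by
    rw [variance_fun_id_gaussianReal]
    simp
  rw [variance_eq_integral (by fun_prop)] at h1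
  simp only [integral_id_gaussianReal, sub_zero] at h1
  have h2 : MemLp (fun x : ℝ => x) 2 (gaussianReal 0 1) := by
    have := memLp_id_gaussianReal (μ := 0) (v := 1) 2
    exact this
  have h3 : Integrable (fun x : ℝ => x ^ 2) (gaussianReal 0 1) := h2.integrable_sq
  have h4 := ofReal_integral_eq_lintegral_ofReal h3
    (Filter.Eventually.of_forall fun x => sq_nonneg x)
  rw [h1, ENNReal.ofReal_one] at h4
  rw [h4]
  refine lintegral_congr fun t => ?_
  rw [sq]

lemma lintegral_dotself (n : ℕ) :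
    ∫⁻ z : Fin n → ℝ, ENNReal.ofReal (z ⬝ᵥ z) ∂gam (Fin n) = n := by
  have h1 : ∀ z : Fin n → ℝ, ENNReal.ofReal (z ⬝ᵥ z) = ∑ i, ENNReal.ofReal (z i * z i) := by
    intro z
    rw [← ENNReal.ofReal_sum_of_nonneg (fun i _ => mul_self_nonneg (z i))]
    rfl
  simp_rw [h1]
  rw [lintegral_finsetSum _ fun i _ => by fun_prop]
  have h2 : ∀ i : Fin n, ∫⁻ z : Fin n → ℝ, ENNReal.ofReal (z i * z i) ∂gam (Fin n) = 1 := by
    intro i
    have hm : Measurable fun t : ℝ => ENNReal.ofReal (t * t) := by fun_prop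
    have := (measurePreserving_eval (fun _ : Fin n => gaussianReal 0 1) i).lintegral_comp hm
    rw [sq_gauss] at this
    exact this
  simp [h2]

/-- The mean of the exponential of the norm. -/
lemma mean_exp (n : ℕ) {τ : ℝ} (hτ : 0 < τ) :
    ENNReal.ofReal (Real.exp (-Real.sqrt (n * τ))) ≤
      ∫⁻ z : Fin n → ℝ, ENNReal.ofReal (Real.exp (-(Real.sqrt τ * Real.sqrt (z ⬝ᵥ z))))
        ∂gam (Fin n) := by
  rcases Nat.eq_zero_or_pos n with hn | hn
  · subst hn
    simp
  have hn' : (0 : ℝ) < n := by exact_mod_cast hn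
  set s := Real.sqrt (n * τ) with hs
  have hst : s = Real.sqrt n * Real.sqrt τ := by rw [hs, Real.sqrt_mul hn'.le]
  set q := Real.sqrt n with hq
  have hq0 : 0 < q := Real.sqrt_pos.mpr hn'
  have hq2 : q ^ 2 = n := Real.sq_sqrt hn'.le
  set t := Real.sqrt τ with ht
  have ht0 : 0 < t := Real.sqrt_pos.mpr hτ
  set κ : ℝ := Real.exp (-s) * (t / (2 * q)) with hκ
  have hκ0 : 0 ≤ κ := by positivity
  have hpt : ∀ z : Fin n → ℝ, Real.exp (-s) + κ * n ≤
      Real.exp (-(t * Real.sqrt (z ⬝ᵥ z))) + κ * (z ⬝ᵥ z) := by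
    intro z
    set r := Real.sqrt (z ⬝ᵥ z) with hr
    have hr2 : z ⬝ᵥ z = r ^ 2 := (Real.sq_sqrt (dot_self_nonneg z)).symm
    rw [hr2]
    have h1 : Real.exp (-s) * (1 + (s - t * r)) ≤ Real.exp (-(t * r)) := by
      have h2 : Real.exp (-(t * r)) = Real.exp (-s) * Real.exp (s - t * r) := by
        rw [← Real.exp_add]
        congr 1
        ring
      rw [h2]
      have h3 := Real.add_one_le_exp (s - t * r)
      have h4 := Real.exp_pos (-s)
      nlinarith
    have h5 : t * r - s ≤ t / (2 * q) * (r ^ 2 - n) := by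
      rw [hst, ← hq2]
      have h6 : t / (2 * q) * (r ^ 2 - q ^ 2) - (t * r - q * t) = t / (2 * q) * (r - q) ^ 2 := by
        field_simp
        ring
      have h7 : 0 ≤ t / (2 * q) * (r - q) ^ 2 := by positivity
      linarith
    have h8 := mul_le_mul_of_nonneg_left h5 (Real.exp_pos (-s)).le
    rw [hκ]
    nlinarith
  have hm : Measurable fun z : Fin n → ℝ => ENNReal.ofReal (Real.exp (-(t * Real.sqrt (z ⬝ᵥ z)))) := by
    simp only [dotProduct]
    fun_prop
  have hm2 : Measurable fun z : Fin n → ℝ => ENNReal.ofReal (z ⬝ᵥ z) := by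
    simp only [dotProduct]
    fun_prop
  have hint : ENNReal.ofReal (Real.exp (-s)) + ENNReal.ofReal κ * n ≤
      (∫⁻ z : Fin n → ℝ, ENNReal.ofReal (Real.exp (-(t * Real.sqrt (z ⬝ᵥ z)))) ∂gam (Fin n)) +
        ENNReal.ofReal κ * n := by
    calc ENNReal.ofReal (Real.exp (-s)) + ENNReal.ofReal κ * n
        = ∫⁻ _ : Fin n → ℝ, ENNReal.ofReal (Real.exp (-s) + κ * n) ∂gam (Fin n) := by
          rw [lintegral_const, measure_univ, mul_one, ENNReal.ofReal_add (Real.exp_pos _).le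
            (by positivity), ENNReal.ofReal_mul hκ0, ENNReal.ofReal_natCast]
      _ ≤ ∫⁻ z : Fin n → ℝ, (ENNReal.ofReal (Real.exp (-(t * Real.sqrt (z ⬝ᵥ z)))) +
            ENNReal.ofReal κ * ENNReal.ofReal (z ⬝ᵥ z)) ∂gam (Fin n) := by
          refine lintegral_mono fun z => ?_
          rw [← ENNReal.ofReal_mul hκ0, ← ENNReal.ofReal_add (Real.exp_pos _).le
            (mul_nonneg hκ0 (dot_self_nonneg z))]
          exact ENNReal.ofReal_le_ofReal (hpt z)
      _ = _ := by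
          rw [lintegral_add_left hm, lintegral_const_mul _ hm2, lintegral_dotself]
  exact (ENNReal.add_le_add_iff_right
    (ENNReal.mul_ne_top ENNReal.ofReal_ne_top (ENNReal.natCast_ne_top n))).mp hint

lemma ae_det (B : Sq n) : ∀ᵐ G ∂muM n n, (Matrix.of (B + G)).det ≠ 0 := by
  have h1 : muM n n ≪ (volume : Measure (Sq n)) := by
    rw [muM_eq]
    exact withDensity_absolutelyContinuous _ _
  have h2 : ∀ᵐ G : Sq n, (Matrix.of (gr (B + G))).PosDef :=
    (measurePreserving_add_left (volume : Measure (Sq n)) B).quasiMeasurePreserving.ae (ae_pd n)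
  have h3 := h1.ae_le h2
  filter_upwards [h3] with G hG h0
  have h4 := hG.det_pos
  rw [of_gr', Matrix.det_mul, h0, zero_mul] at h4
  exact lt_irrefl _ h4

/-- **The smallest singular value of a Gaussian perturbation.** -/
theorem main (B : Sq n) {τ : ℝ} (hτ : 0 < τ) :
    muM n n {G : Sq n | gr (B + G) ∉ cone n τ} ≤ ENNReal.ofReal (Real.sqrt (n * τ)) := by
  have hg : Measurable fun A : Sq n => gr A := measurable_gr
  have hms : MeasurableSet {G : Sq n | gr (B + G) ∈ cone n τ} :=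
    (measurableSet_cone τ).preimage (hg.comp (measurable_const_add B))
  have h1 := shift_muM B hτ
  have h2 : ∫⁻ G : Sq n, ENNReal.ofReal (kap τ (gr (B + G))) ∂muM n n =
      ∫⁻ G : Sq n, ∫⁻ z : Fin n → ℝ, ENNReal.ofReal (Real.exp (-(τ * iq (B + G) z / 2)))
        ∂gam (Fin n) ∂muM n n := by
    refine lintegral_congr_ae ?_
    filter_upwards [ae_det B] with G hG
    exact (gauss_integral (B + G) hG hτ).symm
  have hj : Measurable fun p : Sq n × (Fin n → ℝ) =>
      ENNReal.ofReal (Real.exp (-(τ * iq (B + p.1) p.2 / 2))) :=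
    measurable_expiq ((measurable_const_add B).comp measurable_fst) measurable_snd τ
  have h3 : ∫⁻ G : Sq n, ∫⁻ z : Fin n → ℝ, ENNReal.ofReal (Real.exp (-(τ * iq (B + G) z / 2)))
        ∂gam (Fin n) ∂muM n n =
      ∫⁻ z : Fin n → ℝ, ∫⁻ G : Sq n, ENNReal.ofReal (Real.exp (-(τ * iq (B + G) z / 2)))
        ∂muM n n ∂gam (Fin n) := lintegral_lintegral_swap hj.aemeasurable
  have h4 : ENNReal.ofReal (Real.exp (-Real.sqrt (n * τ))) ≤
      ∫⁻ G : Sq n, ENNReal.ofReal (kap τ (gr (B + G))) ∂muM n n := by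
    rw [h2, h3]
    exact (mean_exp n hτ).trans (lintegral_mono fun z => one_vec B z hτ)
  set x := Real.sqrt (n * τ) with hx
  have hx0 : 0 ≤ x := Real.sqrt_nonneg _
  have hx2 : x ^ 2 = n * τ := Real.sq_sqrt (by positivity)
  have h5 : ENNReal.ofReal (1 - x) ≤ muM n n {G : Sq n | gr (B + G) ∈ cone n τ} := by
    calc ENNReal.ofReal (1 - x) ≤ ENNReal.ofReal (Real.exp (-(x ^ 2 / 2) - x)) :=
          ENNReal.ofReal_le_ofReal (elem hx0)
      _ = ENNReal.ofReal (Real.exp (-(n * τ / 2))) * ENNReal.ofReal (Real.exp (-x)) := by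
          rw [← ENNReal.ofReal_mul (Real.exp_pos _).le, ← Real.exp_add, hx2]
          congr 2
      _ ≤ ENNReal.ofReal (Real.exp (-(n * τ / 2))) *
            ∫⁻ G : Sq n, ENNReal.ofReal (kap τ (gr (B + G))) ∂muM n n := by
          gcongr
      _ ≤ _ := h1
  have h6 : {G : Sq n | gr (B + G) ∉ cone n τ} = {G : Sq n | gr (B + G) ∈ cone n τ}ᶜ := rfl
  rw [h6, prob_compl_eq_one_sub hms, tsub_le_iff_right]
  calc (1 : ℝ≥0∞) = ENNReal.ofReal (x + (1 - x)) := by
        rw [add_sub_cancel, ENNReal.ofReal_one]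
    _ ≤ ENNReal.ofReal x + ENNReal.ofReal (1 - x) := ENNReal.ofReal_add_le
    _ ≤ _ := by gcongr

/-- A matrix whose inverse is large. -/
lemma bad_sub (A : Sq n) {τ : ℝ} (hτ : 0 < τ) (v : Fin n → ℝ) (hv : v ⬝ᵥ v ≤ 1)
    (h : 1 ≤ τ * (((Matrix.of A)⁻¹ *ᵥ v) ⬝ᵥ ((Matrix.of A)⁻¹ *ᵥ v))) : gr A ∉ cone n τ := by
  intro hc
  have hpd : (Matrix.of (addI (gr A) (-τ))).PosDef := hc
  rw [of_addI, of_gr'] at hpd
  set a : Matrix (Fin n) (Fin n) ℝ := Matrix.of A with ha
  have hq : ∀ u : Fin n → ℝ, u ≠ 0 → τ * (u ⬝ᵥ u) < (aᵀ *ᵥ u) ⬝ᵥ (aᵀ *ᵥ u) := by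
    intro u hu
    have h1 := (Matrix.posDef_iff_dotProduct_mulVec.mp hpd).2 hu
    rw [star_trivial, Matrix.add_mulVec, Matrix.smul_mulVec, Matrix.one_mulVec, dotProduct_add,
      dotProduct_smul, ← Matrix.mulVec_mulVec, Matrix.dotProduct_mulVec, ← Matrix.mulVec_transpose,
      smul_eq_mul] at h1
    linarith
  have hdet : a.det ≠ 0 := by
    intro h0
    have h0' : aᵀ.det = 0 := by rw [Matrix.det_transpose, h0]
    obtain ⟨u, hu, hu0⟩ := Matrix.exists_mulVec_eq_zero_iff.mpr h0'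
    have := hq u hu
    rw [hu0, zero_dotProduct] at this
    have h2 : 0 ≤ τ * (u ⬝ᵥ u) := mul_nonneg hτ.le (dot_self_nonneg u)
    linarith
  have hu : IsUnit a.det := isUnit_iff_ne_zero.mpr hdet
  have hut : IsUnit aᵀ.det := by rwa [Matrix.det_transpose]
  set w := a⁻¹ *ᵥ v with hw
  have haw : a *ᵥ w = v := by
    rw [hw, Matrix.mulVec_mulVec, Matrix.mul_nonsing_inv _ hu, Matrix.one_mulVec]
  set u := aᵀ⁻¹ *ᵥ w with hudef
  have hau : aᵀ *ᵥ u = w := by
    rw [hudef, Matrix.mulVec_mulVec, Matrix.mul_nonsing_inv _ hut, Matrix.one_mulVec]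
  have hww : 0 < w ⬝ᵥ w := by
    by_contra hcon
    have : w ⬝ᵥ w = 0 := le_antisymm (not_lt.mp hcon) (dot_self_nonneg w)
    rw [this] at h
    linarith
  have hu0 : u ≠ 0 := by
    intro h0
    rw [h0, Matrix.mulVec_zero] at hau
    rw [← hau, zero_dotProduct] at hww
    exact lt_irrefl _ hww
  have h1 := hq u hu0
  rw [hau] at h1
  have h2 : w ⬝ᵥ w = v ⬝ᵥ u := by
    have : w ⬝ᵥ w = w ⬝ᵥ (aᵀ *ᵥ u) := by rw [hau]
    rw [this, Matrix.dotProduct_mulVec, ← Matrix.mulVec_transpose, Matrix.transpose_transpose, haw]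
  have hcs : (v ⬝ᵥ u) ^ 2 ≤ (v ⬝ᵥ v) * (u ⬝ᵥ u) := by
    have := Finset.sum_mul_sq_le_sq_mul_sq Finset.univ v u
    simp only [dotProduct]
    simpa [sq] using this
  rw [← h2] at hcs
  have h3 : 0 ≤ u ⬝ᵥ u := dot_self_nonneg u
  have h4 : (w ⬝ᵥ w) ^ 2 ≤ u ⬝ᵥ u := hcs.trans (by nlinarith)
  nlinarith

end Pool.Agent.U312.SV
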