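import Pool.Agent.U312.SV.Chol

/-!
# Averaging over the orthogonal group and the shift inequality
-/

set_option autoImplicit false
open MeasureTheory Measure Set Metric Matrix
open scoped ENNReal NNReal
open Pool.Agent.H892R2.Proj

namespace Pool.Agent.U312.SV

variable {n : ℕ}

/-- Right multiplication. -/
def rmul (Q : Matrix (Fin n) (Fin n) ℝ) (A : Sq n) : Sq n := fun i => Qᵀ *ᵥ A i

lemma of_rmul (Q : Matrix (Fin n) (Fin n) ℝ) (A : Sq n) :
    Matrix.of (rmul Q A) = Matrix.of A * Q := by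
  ext i j
  simp only [rmul, Matrix.of_apply, Matrix.mul_apply, Matrix.mulVec, dotProduct,
    Matrix.transpose_apply]
  exact Finset.sum_congr rfl fun l _ => mul_comm _ _

lemma of_gr' (A : Sq n) : Matrix.of (gr A) = Matrix.of A * (Matrix.of A)ᵀ := by
  ext i j
  simp only [gr, Matrix.of_apply, Matrix.mul_apply, dotProduct, Matrix.transpose_apply]

lemma det_orth (Q : O n) : |(Q.1)ᵀ.det⁻¹| = 1 := by
  have h1 : Q.1 * (Q.1)ᵀ = 1 := (Matrix.mem_orthogonalGroup_iff (Fin n) ℝ).mp Q.2
  have h2 : Q.1.det * Q.1.det = 1 := by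
    have := congrArg Matrix.det h1
    rwa [Matrix.det_mul, Matrix.det_transpose, Matrix.det_one] at this
  rw [Matrix.det_transpose]
  rcases mul_self_eq_one_iff.mp h2 with h | h <;> rw [h] <;> norm_num

lemma mp_rmul (Q : O n) :
    MeasurePreserving (rmul Q.1) (volume : Measure (Sq n)) (volume : Measure (Sq n)) := by
  refine volume_preserving_pi fun i => ?_
  have hd : (Q.1)ᵀ.det ≠ 0 := by
    intro h
    have := det_orth Q
    rw [h] at this
    simp at this
  refine ⟨?_, ?_⟩
  · refine measurable_pi_iff.mpr fun i => ?_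
    simp only [Matrix.mulVec, dotProduct]
    fun_prop
  · have h := Real.map_matrix_volume_pi_eq_smul_volume_pi hd
    rw [det_orth, ENNReal.ofReal_one, one_smul] at h
    have : (Q.1)ᵀ.mulVec = (Matrix.toLin' (Q.1)ᵀ) := by
      funext a; simp
    rw [this, h]

lemma gr_rmul (Q : O n) (A : Sq n) : gr (rmul Q.1 A) = gr A := by
  have h1 : Q.1 * (Q.1)ᵀ = 1 := (Matrix.mem_orthogonalGroup_iff (Fin n) ℝ).mp Q.2
  have h2 : Matrix.of (gr (rmul Q.1 A)) = Matrix.of (gr A) := by
    rw [of_gr', of_rmul, of_gr', Matrix.transpose_mul, Matrix.mul_assoc, ← Matrix.mul_assoc Q.1,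
      h1, Matrix.one_mul]
  exact h2

/-- Averaging over the orthogonal group. -/
theorem averaging (B : Matrix (Fin n) (Fin n) ℝ) (F : Sq n → ℝ≥0∞) (hF : Measurable F) :
    ∫⁻ A : Sq n, F (gr A) * ENNReal.ofReal (Real.exp (ip (Matrix.of A) B)) =
      ∫⁻ A : Sq n, F (gr A) * av B (Matrix.of A) := by
  have hg : Measurable fun A : Sq n => gr A := measurable_gr
  have hip : Measurable fun A : Sq n => ENNReal.ofReal (Real.exp (ip (Matrix.of A) B)) := by
    have : Measurable fun A : Sq n => ip (Matrix.of A) B := by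
      unfold ip
      simp only [Matrix.of_apply]
      fun_prop
    exact (Real.measurable_exp.comp this).ennreal_ofReal
  have hm : Measurable fun A : Sq n => F (gr A) *
      ENNReal.ofReal (Real.exp (ip (Matrix.of A) B)) := (hF.comp hg).mul hip
  have h1 : ∀ Q : O n, ∫⁻ A : Sq n, F (gr A) *
      ENNReal.ofReal (Real.exp (ip (Matrix.of A * Q.1) B)) =
      ∫⁻ A : Sq n, F (gr A) * ENNReal.ofReal (Real.exp (ip (Matrix.of A) B)) := by
    intro Q
    rw [← (mp_rmul Q).lintegral_comp hm]
    refine lintegral_congr fun A => ?_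
    rw [gr_rmul, of_rmul]
  have hj : Measurable fun z : O n × Sq n => F (gr z.2) *
      ENNReal.ofReal (Real.exp (ip (Matrix.of z.2 * z.1.1) B)) := by
    refine ((hF.comp hg).comp measurable_snd).mul ?_
    have h2 : Measurable fun z : O n × Sq n => (z.2, z.1) :=
      measurable_snd.prodMk measurable_fst
    have h3 := (measurable_joint B).comp h2
    exact h3
  calc ∫⁻ A : Sq n, F (gr A) * ENNReal.ofReal (Real.exp (ip (Matrix.of A) B))
      = ∫⁻ _ : O n, (∫⁻ A : Sq n, F (gr A) *
          ENNReal.ofReal (Real.exp (ip (Matrix.of A) B))) ∂haarO n := by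
        rw [lintegral_const, measure_univ, mul_one]
    _ = ∫⁻ Q : O n, (∫⁻ A : Sq n, F (gr A) *
          ENNReal.ofReal (Real.exp (ip (Matrix.of A * Q.1) B))) ∂haarO n := by
        refine lintegral_congr fun Q => ?_
        rw [h1 Q]
    _ = ∫⁻ A : Sq n, ∫⁻ Q : O n, F (gr A) *
          ENNReal.ofReal (Real.exp (ip (Matrix.of A * Q.1) B)) ∂haarO n :=
        lintegral_lintegral_swap hj.aemeasurable
    _ = ∫⁻ A : Sq n, F (gr A) * av B (Matrix.of A) := by
        refine lintegral_congr fun A => ?_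
        rw [lintegral_const_mul _ (measurable_right B (Matrix.of A))]
        rfl

/-- The average as a function of the Gram matrix. -/
noncomputable def avc (B : Matrix (Fin n) (Fin n) ℝ) (W : Sq n) : ℝ≥0∞ :=
  av B (Matrix.of (chol n W))

lemma measurable_avc (B : Matrix (Fin n) (Fin n) ℝ) : Measurable (avc B) := by
  have h := (measurable_av B).comp (measurable_chol n)
  exact h

lemma av_gr (B : Matrix (Fin n) (Fin n) ℝ) (A : Sq n) (h : (Matrix.of (gr A)).PosDef) :
    av B (Matrix.of A) = avc B (gr A) := by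
  obtain ⟨h1, h2⟩ := chol_spec n (gr A) h
  refine av_eq_of_mul_transpose B _ _ ?_ h2
  rw [h1, of_gr']

lemma ae_pd (n : ℕ) : ∀ᵐ A : Sq n, (Matrix.of (gr A)).PosDef := by
  obtain ⟨C, hC⟩ := gram_density n 0
  have h1 := hC ({W : Sq n | (Matrix.of W).PosDef}ᶜ.indicator fun _ => 1)
    (measurable_const.indicator (measurableSet_pd n).compl)
  have h2 : symInt n (wgt ((((0 : ℕ) : ℝ) - 1) / 2)
      ({W : Sq n | (Matrix.of W).PosDef}ᶜ.indicator fun _ => 1)) = 0 := by
    rw [← symInt_zero n]
    refine symInt_congr n fun W => ?_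
    by_cases hW : (Matrix.of W).PosDef
    · rw [wgt_of_pd _ _ hW, indicator_of_notMem (by simpa using hW), mul_zero]
    · exact wgt_of_not _ _ hW
  rw [h2, mul_zero] at h1
  rw [lintegral_eq_zero_iff] at h1
  · filter_upwards [h1] with A hA
    by_contra hcon
    simp only [Pi.zero_apply] at hA
    have hmem : gr A ∈ {W : Sq n | (Matrix.of W).PosDef}ᶜ := hcon
    have h3 := indicator_of_mem hmem (fun _ : Sq n => (1 : ℝ≥0∞))
    have h4 : (1 : ℝ≥0∞) = 0 := h3.symm.trans hA
    exact one_ne_zero h4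
  · exact (measurable_const.indicator (measurableSet_pd n).compl).comp measurable_gr

/-- The distribution of the Gram matrix with an exponential tilt. -/
theorem tilted (B : Matrix (Fin n) (Fin n) ℝ) : ∃ C : ℝ≥0∞, ∀ F : Sq n → ℝ≥0∞, Measurable F →
    ∫⁻ A : Sq n, F (gr A) * ENNReal.ofReal (Real.exp (ip (Matrix.of A) B)) =
      C * symInt n (wgt ((0 - 1) / 2) (fun W => F W * avc B W)) := by
  obtain ⟨C, hC⟩ := gram_density n 0
  refine ⟨C, fun F hF => ?_⟩
  have h1 := hC (fun W => F W * avc B W) (hF.mul (measurable_avc B))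
  rw [Nat.cast_zero] at h1
  rw [← h1, averaging B F hF]
  refine lintegral_congr_ae ?_
  filter_upwards [ae_pd n] with A hA
  rw [av_gr B A hA]

/-- Monotonicity of the averages. -/
theorem avc_mono (B : Matrix (Fin n) (Fin n) ℝ) {W : Sq n} (hW : (Matrix.of W).PosDef) {τ : ℝ}
    (hτ : 0 < τ) : (Matrix.of (addI W τ)).PosDef ∧ avc B W ≤ avc B (addI W τ) := by
  have hpd : (Matrix.of (addI W τ)).PosDef := by
    rw [of_addI]
    have h1 : (τ • (1 : Matrix (Fin n) (Fin n) ℝ)).PosDef := Matrix.PosDef.one.smul hτ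
    exact hW.add h1
  refine ⟨hpd, ?_⟩
  have hH := hW.isHermitian
  set lam := hH.eigenvalues with hlam
  have hlp : ∀ i, 0 < lam i := hW.eigenvalues_pos
  set U : Matrix (Fin n) (Fin n) ℝ := (hH.eigenvectorUnitary : Matrix (Fin n) (Fin n) ℝ) with hU
  have hUU : U * Uᵀ = 1 := by
    have := (Matrix.mem_unitaryGroup_iff (A := U)).mp hH.eigenvectorUnitary.2
    rwa [Matrix.star_eq_conjTranspose, Matrix.conjTranspose_eq_transpose_of_trivial] at this
  have hUtU : Uᵀ * U = 1 := mul_eq_one_comm.mp hUU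
  have hspec : Matrix.of W = U * Matrix.diagonal lam * Uᵀ := by
    have := hH.spectral_theorem
    rw [Unitary.conjStarAlgAut_apply] at this
    rw [Matrix.star_eq_conjTranspose, Matrix.conjTranspose_eq_transpose_of_trivial] at this
    exact this
  set B1 : Matrix (Fin n) (Fin n) ℝ := U * Matrix.diagonal (fun i => Real.sqrt (lam i)) with hB1
  set B2 : Matrix (Fin n) (Fin n) ℝ := U * Matrix.diagonal (fun i => Real.sqrt (lam i + τ))
    with hB2
  have hdiag : ∀ v : Fin n → ℝ, (∀ i, 0 ≤ v i) →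
      (U * Matrix.diagonal (fun i => Real.sqrt (v i))) *
        (U * Matrix.diagonal (fun i => Real.sqrt (v i)))ᵀ = U * Matrix.diagonal v * Uᵀ := by
    intro v hv
    rw [Matrix.transpose_mul, Matrix.diagonal_transpose, Matrix.mul_assoc,
      ← Matrix.mul_assoc (Matrix.diagonal _), Matrix.diagonal_mul_diagonal, ← Matrix.mul_assoc]
    congr 3
    funext i
    exact Real.mul_self_sqrt (hv i)
  have h1 : B1 * B1ᵀ = Matrix.of W := by
    rw [hspec]
    exact hdiag lam fun i => (hlp i).le
  have h2 : B2 * B2ᵀ = Matrix.of (addI W τ) := by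
    have h3 := hdiag (fun i => lam i + τ) fun i => (add_pos (hlp i) hτ).le
    rw [hB2, h3, of_addI, hspec]
    have h4 : Matrix.diagonal (fun i => lam i + τ) =
        Matrix.diagonal lam + τ • (1 : Matrix (Fin n) (Fin n) ℝ) := by
      ext i j
      by_cases hij : i = j
      · subst hij; simp
      · simp [hij]
    rw [h4, Matrix.mul_add, Matrix.add_mul, Matrix.mul_smul, Matrix.mul_one, Matrix.smul_mul, hUU]
  have h12 : B1 = B2 * Matrix.diagonal (fun i => Real.sqrt (lam i) / Real.sqrt (lam i + τ)) := by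
    rw [hB1, hB2, Matrix.mul_assoc, Matrix.diagonal_mul_diagonal]
    congr 2
    funext i
    have : Real.sqrt (lam i + τ) ≠ 0 := (Real.sqrt_pos.mpr (add_pos (hlp i) hτ)).ne'
    field_simp
  obtain ⟨c1, c2⟩ := chol_spec n W hW
  obtain ⟨d1, d2⟩ := chol_spec n (addI W τ) hpd
  have hB1det : B1.det ≠ 0 := by
    intro h
    have := congrArg Matrix.det h1
    rw [Matrix.det_mul, h, zero_mul] at this
    exact hW.det_pos.ne this
  have e1 : avc B W = av B B1 := av_eq_of_mul_transpose B _ _ (by rw [c1, h1]) hB1det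
  have e2 : av B B2 = avc B (addI W τ) := av_eq_of_mul_transpose B _ _ (by rw [d1, h2]) d2
  rw [e1, ← e2, h12]
  refine av_shrink B B2 _ (fun i => by positivity) fun i => ?_
  have hp : 0 < Real.sqrt (lam i + τ) := Real.sqrt_pos.mpr (add_pos (hlp i) hτ)
  rw [div_le_one hp]
  exact Real.sqrt_le_sqrt (by linarith)

/-- The trace. -/
def trc (W : Sq n) : ℝ := ∑ i, W i i

/-- The ratio of determinants. -/
noncomputable def kap (τ : ℝ) (W : Sq n) : ℝ :=
  Real.sqrt ((Matrix.of W).det / (Matrix.of (addI W τ)).det)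

lemma measurable_trc : Measurable (trc (n := n)) := by
  unfold trc
  fun_prop

lemma measurable_addI (τ : ℝ) : Measurable fun W : Sq n => addI W τ := by
  refine measurable_pi_iff.mpr fun i => measurable_pi_iff.mpr fun j => ?_
  simp only [addI]
  fun_prop

lemma measurable_kap (τ : ℝ) : Measurable (kap (n := n) τ) := by
  unfold kap
  have h := (continuous_ofdet (k := n)).measurable
  exact (h.div (h.comp (measurable_addI τ))).sqrt

lemma trc_addI (W : Sq n) (τ : ℝ) : trc (addI W τ) = trc W + n * τ := by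
  unfold trc
  simp [addI, Finset.sum_add_distrib]

lemma addI_addI (W : Sq n) (s t : ℝ) : addI (addI W s) t = addI W (s + t) := by
  funext i j
  simp only [addI]
  by_cases h : i = j <;> simp [h]
  ring

lemma addI_zero (W : Sq n) : addI W 0 = W := by
  funext i j
  simp [addI]

/-- The shifted cone. -/
def cone (n : ℕ) (τ : ℝ) : Set (Sq n) := {W | (Matrix.of (addI W (-τ))).PosDef}

lemma measurableSet_cone (τ : ℝ) : MeasurableSet (cone n τ) :=
  (measurableSet_pd n).preimage (measurable_addI (-τ))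

/-- **The shift inequality.** -/
theorem shift (B : Matrix (Fin n) (Fin n) ℝ) {τ : ℝ} (hτ : 0 < τ) :
    ENNReal.ofReal (Real.exp (-(n * τ / 2))) *
      ∫⁻ A : Sq n, (ENNReal.ofReal (kap τ (gr A)) * ENNReal.ofReal (Real.exp (-(trc (gr A) / 2)))) *
        ENNReal.ofReal (Real.exp (ip (Matrix.of A) B)) ≤
      ∫⁻ A : Sq n, ((cone n τ).indicator 1 (gr A) *
        ENNReal.ofReal (Real.exp (-(trc (gr A) / 2)))) *
        ENNReal.ofReal (Real.exp (ip (Matrix.of A) B)) := by
  obtain ⟨C, hC⟩ := tilted B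
  have hexp : Measurable fun W : Sq n => ENNReal.ofReal (Real.exp (-(trc W / 2))) :=
    (Real.measurable_exp.comp ((measurable_trc.div_const 2).neg)).ennreal_ofReal
  have hF1 : Measurable fun W : Sq n => ENNReal.ofReal (kap τ W) *
      ENNReal.ofReal (Real.exp (-(trc W / 2))) := (measurable_kap τ).ennreal_ofReal.mul hexp
  have hF2 : Measurable fun W : Sq n => (cone n τ).indicator 1 W *
      ENNReal.ofReal (Real.exp (-(trc W / 2))) :=
    ((measurable_const (a := (1 : ℝ≥0∞))).indicator (measurableSet_cone τ)).mul hexp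
  rw [hC _ hF1, hC _ hF2, mul_left_comm]
  refine mul_le_mul_right ?_ _
  have hwm : Measurable (wgt ((0 - 1) / 2) fun W : Sq n => ENNReal.ofReal (kap τ W) *
      ENNReal.ofReal (Real.exp (-(trc W / 2))) * avc B W) :=
    measurable_wgt _ (hF1.mul (measurable_avc B))
  rw [← symInt_const_mul n _ hwm]
  rw [← symInt_addI n τ (wgt ((0 - 1) / 2) fun W : Sq n => (cone n τ).indicator 1 W *
      ENNReal.ofReal (Real.exp (-(trc W / 2))) * avc B W)]
  refine symInt_mono n fun W => ?_
  by_cases hW : (Matrix.of W).PosDef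
  swap
  · rw [wgt_of_not _ _ hW, mul_zero]
    exact zero_le
  obtain ⟨hpd, hmono⟩ := avc_mono B hW hτ
  rw [wgt_of_pd _ _ hW, wgt_of_pd _ _ hpd]
  have hmem : addI W τ ∈ cone n τ := by
    change (Matrix.of (addI (addI W τ) (-τ))).PosDef
    rw [addI_addI, add_neg_cancel, addI_zero]
    exact hW
  rw [indicator_of_mem hmem, Pi.one_apply, one_mul, trc_addI]
  have hd1 := hW.det_pos
  have hd2 := hpd.det_pos
  set D1 := (Matrix.of W).det with hD1
  set D2 := (Matrix.of (addI W τ)).det with hD2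
  have hk : kap τ W = Real.sqrt D1 / Real.sqrt D2 := by
    rw [kap, Real.sqrt_div hd1.le]
  have hr : ∀ D : ℝ, 0 < D → D ^ (((0 : ℝ) - 1) / 2) = (Real.sqrt D)⁻¹ := by
    intro D hD
    rw [Real.sqrt_eq_rpow, ← Real.rpow_neg hD.le]
    norm_num
  have hs1 : 0 < Real.sqrt D1 := Real.sqrt_pos.mpr hd1
  have hs2 : 0 < Real.sqrt D2 := Real.sqrt_pos.mpr hd2
  rw [hr D1 hd1, hr D2 hd2, hk]
  calc ENNReal.ofReal (Real.exp (-(n * τ / 2))) * (ENNReal.ofReal (Real.sqrt D1)⁻¹ *
        (ENNReal.ofReal (Real.sqrt D1 / Real.sqrt D2) *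
          ENNReal.ofReal (Real.exp (-(trc W / 2))) * avc B W))
      = (ENNReal.ofReal (Real.exp (-(n * τ / 2))) * ENNReal.ofReal (Real.sqrt D1)⁻¹ *
          ENNReal.ofReal (Real.sqrt D1 / Real.sqrt D2) *
          ENNReal.ofReal (Real.exp (-(trc W / 2)))) * avc B W := by
        simp only [mul_assoc]
    _ = (ENNReal.ofReal (Real.sqrt D2)⁻¹ *
          ENNReal.ofReal (Real.exp (-((trc W + n * τ) / 2)))) * avc B W := by
        congr 1
        rw [← ENNReal.ofReal_mul (by positivity), ← ENNReal.ofReal_mul (by positivity),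
          ← ENNReal.ofReal_mul (by positivity), ← ENNReal.ofReal_mul (by positivity)]
        congr 1
        have e1 : Real.exp (-((trc W + n * τ) / 2)) =
            Real.exp (-(n * τ / 2)) * Real.exp (-(trc W / 2)) := by
          rw [← Real.exp_add]
          congr 1
          ring
        rw [e1]
        field_simp
    _ ≤ (ENNReal.ofReal (Real.sqrt D2)⁻¹ *
          ENNReal.ofReal (Real.exp (-((trc W + n * τ) / 2)))) * avc B (addI W τ) := by
        gcongr
    _ = ENNReal.ofReal (Real.sqrt D2)⁻¹ *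
          (ENNReal.ofReal (Real.exp (-((trc W + n * τ) / 2))) * avc B (addI W τ)) := by
        rw [mul_assoc]

end Pool.Agent.U312.SV
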