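import Pool.Agent.U312.SV.Row

/-!
# Bordered matrices: determinant and positive definiteness
-/

set_option autoImplicit false
open MeasureTheory Measure Set Metric Matrix
open scoped ENNReal NNReal

namespace Pool.Agent.U312.SV

/-- Square arrays. -/
abbrev Sq (k : ℕ) : Type := Fin k → Fin k → ℝ

/-- The bordered array. -/
def brd {k : ℕ} (W : Sq k) (w : Fin k → ℝ) (c : ℝ) : Sq (k + 1) :=
  Fin.cons (Fin.cons c w : Fin (k + 1) → ℝ)
    (fun i => (Fin.cons (w i) (W i) : Fin (k + 1) → ℝ))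

@[simp] lemma brd_zero_zero {k : ℕ} (W : Sq k) (w : Fin k → ℝ) (c : ℝ) : brd W w c 0 0 = c := rfl
@[simp] lemma brd_zero_succ {k : ℕ} (W : Sq k) (w : Fin k → ℝ) (c : ℝ) (j : Fin k) :
    brd W w c 0 j.succ = w j := rfl
@[simp] lemma brd_succ_zero {k : ℕ} (W : Sq k) (w : Fin k → ℝ) (c : ℝ) (j : Fin k) :
    brd W w c j.succ 0 = w j := rfl
@[simp] lemma brd_succ_succ {k : ℕ} (W : Sq k) (w : Fin k → ℝ) (c : ℝ) (i j : Fin k) :
    brd W w c i.succ j.succ = W i j := rfl

/-- The Gram array of the rows. -/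
def gr {k m : ℕ} (A : Fin k → Fin m → ℝ) : Sq k := fun i j => A i ⬝ᵥ A j

lemma gr_cons {k m : ℕ} (A : Fin k → Fin m → ℝ) (a : Fin m → ℝ) :
    gr (Fin.cons a A : Fin (k + 1) → Fin m → ℝ) = brd (gr A) (fun i => A i ⬝ᵥ a) (a ⬝ᵥ a) := by
  funext i j
  refine Fin.cases ?_ (fun i => ?_) i <;> refine Fin.cases ?_ (fun j => ?_) j
  · rfl
  · simp only [gr, Fin.cons_zero, Fin.cons_succ, brd_zero_succ]; exact dotProduct_comm _ _
  · rfl
  · rfl

lemma of_gr {k m : ℕ} (A : Fin k → Fin m → ℝ) : Matrix.of (gr A) = gram A := rfl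

/-- The determinant of a bordered matrix. -/
lemma det_brd {k : ℕ} (W : Sq k) (w : Fin k → ℝ) (c : ℝ) (hW : (Matrix.of W).det ≠ 0) :
    (Matrix.of (brd W w c)).det =
      (Matrix.of W).det * (c - w ⬝ᵥ ((Matrix.of W)⁻¹ *ᵥ w)) := by
  classical
  letI : Invertible (Matrix.of W) :=
    Matrix.invertibleOfIsUnitDet _ (isUnit_iff_ne_zero.mpr hW)
  set e : Fin k ⊕ PUnit.{1} ≃ Fin (k + 1) :=
    ((finSuccEquiv k).trans (Equiv.optionEquivSumPUnit (Fin k))).symm with he
  have he1 : ∀ i : Fin k, e (Sum.inl i) = i.succ := by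
    intro i
    simp [he]
  have he2 : ∀ u : PUnit.{1}, e (Sum.inr u) = 0 := by
    intro u
    simp [he]
  have h1 : (Matrix.of (brd W w c)).submatrix e e =
      Matrix.fromBlocks (Matrix.of W) (Matrix.of fun i (_ : PUnit.{1}) => w i)
        (Matrix.of fun (_ : PUnit.{1}) j => w j) (Matrix.of fun (_ _ : PUnit.{1}) => c) := by
    ext i j
    rcases i with i | i <;> rcases j with j | j <;> simp [he1, he2]
  rw [← Matrix.det_submatrix_equiv_self e, h1, Matrix.det_fromBlocks₁₁]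
  congr 1
  rw [Matrix.det_unique, Matrix.invOf_eq_nonsing_inv]
  simp only [Matrix.sub_apply, Matrix.of_apply, Matrix.mul_assoc]
  congr 1

/-- The quadratic form of a bordered matrix. -/
lemma quad_brd {k : ℕ} (W : Sq k) (w : Fin k → ℝ) (c : ℝ) (t : ℝ) (y : Fin k → ℝ) :
    (Fin.cons t y : Fin (k + 1) → ℝ) ⬝ᵥ (Matrix.of (brd W w c) *ᵥ (Fin.cons t y)) =
      c * t ^ 2 + 2 * t * (w ⬝ᵥ y) + y ⬝ᵥ (Matrix.of W *ᵥ y) := by
  have h1 : (Matrix.of (brd W w c) *ᵥ (Fin.cons t y : Fin (k + 1) → ℝ)) =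
      (Fin.cons (c * t + w ⬝ᵥ y) (fun i => w i * t + (Matrix.of W *ᵥ y) i) :
        Fin (k + 1) → ℝ) := by
    funext i
    refine Fin.cases ?_ (fun i => ?_) i
    · simp [Matrix.mulVec, dotProduct, Fin.sum_univ_succ]
    · simp [Matrix.mulVec, dotProduct, Fin.sum_univ_succ]
  rw [h1]
  simp only [dotProduct, Fin.sum_univ_succ, Fin.cons_zero, Fin.cons_succ, mul_add,
    Finset.sum_add_distrib]
  have h2 : ∑ i, y i * (w i * t) = t * ∑ i, w i * y i := by
    rw [Finset.mul_sum]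
    exact Finset.sum_congr rfl fun i _ => by ring
  rw [h2]
  ring

lemma herm_iff {k : ℕ} (W : Sq k) : (Matrix.of W).IsHermitian ↔ ∀ i j, W i j = W j i := by
  constructor
  · intro h i j
    have := h.apply i j
    simpa using this.symm
  · intro h
    ext i j
    simp [h j i]

lemma pd_iff {k : ℕ} (W : Sq k) : (Matrix.of W).PosDef ↔ (∀ i j, W i j = W j i) ∧
    ∀ x : Fin k → ℝ, x ≠ 0 → 0 < x ⬝ᵥ (Matrix.of W *ᵥ x) := by
  rw [Matrix.posDef_iff_dotProduct_mulVec, herm_iff]
  simp only [star_trivial]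

/-- Positive definiteness of a bordered matrix. -/
lemma pd_brd {k : ℕ} (W : Sq k) (w : Fin k → ℝ) (c : ℝ) :
    (Matrix.of (brd W w c)).PosDef ↔
      (Matrix.of W).PosDef ∧ w ⬝ᵥ ((Matrix.of W)⁻¹ *ᵥ w) < c := by
  constructor
  · intro h
    rw [pd_iff] at h
    have hW : (Matrix.of W).PosDef := by
      rw [pd_iff]
      refine ⟨fun i j => h.1 i.succ j.succ, fun x hx => ?_⟩
      have h1 := h.2 (Fin.cons 0 x) (by
        intro h0
        apply hx
        funext i
        have := congrFun h0 i.succ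
        simpa using this)
      rw [quad_brd] at h1
      simpa using h1
    refine ⟨hW, ?_⟩
    have hu : IsUnit (Matrix.of W).det := isUnit_iff_ne_zero.mpr hW.det_pos.ne'
    set z := (Matrix.of W)⁻¹ *ᵥ w with hz
    have hWz : Matrix.of W *ᵥ (-z) = -w := by
      rw [Matrix.mulVec_neg, hz, Matrix.mulVec_mulVec, Matrix.mul_nonsing_inv _ hu,
        Matrix.one_mulVec]
    have h1 := h.2 (Fin.cons 1 (-z)) (by
      intro h0
      have := congrFun h0 0
      simp at this)
    rw [quad_brd, hWz] at h1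
    rw [dotProduct_neg, neg_dotProduct_neg, dotProduct_comm z w] at h1
    nlinarith
  · rintro ⟨hW, hc⟩
    have hu : IsUnit (Matrix.of W).det := isUnit_iff_ne_zero.mpr hW.det_pos.ne'
    have hW' := (pd_iff W).mp hW
    rw [pd_iff]
    refine ⟨?_, fun x hx => ?_⟩
    · intro i j
      refine Fin.cases ?_ (fun i => ?_) i <;> refine Fin.cases ?_ (fun j => ?_) j
      · rfl
      · rfl
      · rfl
      · exact hW'.1 i j
    · obtain ⟨t, y, rfl⟩ : ∃ (t : ℝ) (y : Fin k → ℝ), x = Fin.cons t y :=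
        ⟨x 0, fun i => x i.succ, (Fin.cons_self_tail x).symm⟩
      rw [quad_brd]
      set z := (Matrix.of W)⁻¹ *ᵥ w with hz
      have hWz : Matrix.of W *ᵥ z = w := by
        rw [hz, Matrix.mulVec_mulVec, Matrix.mul_nonsing_inv _ hu, Matrix.one_mulVec]
      have hsym : ∀ u v : Fin k → ℝ, u ⬝ᵥ (Matrix.of W *ᵥ v) = v ⬝ᵥ (Matrix.of W *ᵥ u) := by
        intro u v
        rw [Matrix.dotProduct_mulVec, ← Matrix.mulVec_transpose, dotProduct_comm]
        congr 2
        ext i j
        simpa using hW'.1 j i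
      have h1 : (y + t • z) ⬝ᵥ (Matrix.of W *ᵥ (y + t • z)) =
          y ⬝ᵥ (Matrix.of W *ᵥ y) + 2 * t * (w ⬝ᵥ y) + t ^ 2 * (w ⬝ᵥ z) := by
        rw [Matrix.mulVec_add, Matrix.mulVec_smul, hWz, dotProduct_add, add_dotProduct,
          add_dotProduct, dotProduct_smul, smul_dotProduct, smul_dotProduct, dotProduct_smul,
          hsym z y, hWz]
        simp only [smul_eq_mul]
        rw [dotProduct_comm y w, dotProduct_comm z w]
        ring
      by_cases ht : t = 0
      · subst ht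
        have hy : y ≠ 0 := by
          intro h0
          apply hx
          rw [h0]
          funext i
          refine Fin.cases ?_ (fun i => ?_) i <;> simp
        have := hW'.2 y hy
        simpa using this
      · have h2 : 0 ≤ (y + t • z) ⬝ᵥ (Matrix.of W *ᵥ (y + t • z)) := by
          by_cases h0 : y + t • z = 0
          · rw [h0]; simp
          · exact (hW'.2 _ h0).le
        have h3 : 0 < t ^ 2 * (c - w ⬝ᵥ z) := mul_pos (by positivity) (by linarith)
        nlinarith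

end Pool.Agent.U312.SV
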