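import Pool.Agent.U312.SV.Orth

/-!
# A measurable square root, and monotonicity of the averages
-/

set_option autoImplicit false
open MeasureTheory Measure Set Metric Matrix
open scoped ENNReal NNReal
open Pool.Agent.H892R2.Proj

namespace Pool.Agent.U312.SV

/-- The core of the array. -/
def core {k : ℕ} (W : Sq (k + 1)) : Sq k := fun i j => W i.succ j.succ

/-- The first column. -/
def fcol {k : ℕ} (W : Sq (k + 1)) : Fin k → ℝ := fun i => W i.succ 0

/-- The new entries of the factor. -/
noncomputable def newb {k : ℕ} (L : Sq k) (w : Fin k → ℝ) : Fin k → ℝ := (Matrix.of L)⁻¹ *ᵥ w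

/-- A triangular factor. -/
noncomputable def chol : (k : ℕ) → Sq k → Sq k
  | 0, _ => 0
  | k + 1, W => Fin.cons (Fin.cons (Real.sqrt (W 0 0 - newb (chol k (core W)) (fcol W) ⬝ᵥ
        newb (chol k (core W)) (fcol W))) (newb (chol k (core W)) (fcol W)) : Fin (k + 1) → ℝ)
      (fun i => (Fin.cons 0 (chol k (core W) i) : Fin (k + 1) → ℝ))

lemma measurable_newb {k : ℕ} : Measurable fun z : Sq k × (Fin k → ℝ) => newb z.1 z.2 := by
  have h0 : Continuous fun z : Sq k × (Fin k → ℝ) => Matrix.of z.1 :=
    continuous_matrix fun i j => by simp only [Matrix.of_apply]; fun_prop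
  have h1 : Measurable fun z : Sq k × (Fin k → ℝ) => (Matrix.of z.1).det⁻¹ :=
    h0.matrix_det.measurable.inv
  have h2 : Continuous fun z : Sq k × (Fin k → ℝ) => (Matrix.of z.1).adjugate *ᵥ z.2 :=
    h0.matrix_adjugate.matrix_mulVec continuous_snd
  have h3 : (fun z : Sq k × (Fin k → ℝ) => newb z.1 z.2) =
      fun z => (Matrix.of z.1).det⁻¹ • ((Matrix.of z.1).adjugate *ᵥ z.2) := by
    funext z
    unfold newb
    rw [Matrix.inv_def, Ring.inverse_eq_inv', Matrix.smul_mulVec]
  rw [h3]
  exact h1.smul h2.measurable

lemma measurable_fcons {k : ℕ} {X : Type*} [MeasurableSpace X] {f : X → ℝ} {g : X → Fin k → ℝ}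
    (hf : Measurable f) (hg : Measurable g) :
    Measurable fun x => (Fin.cons (f x) (g x) : Fin (k + 1) → ℝ) := by
  refine measurable_pi_iff.mpr fun j => ?_
  refine Fin.cases ?_ (fun j => ?_) j
  · simpa using hf
  · simp only [Fin.cons_succ]
    exact measurable_pi_iff.mp hg j

lemma measurable_newb' {k : ℕ} {X : Type*} [MeasurableSpace X] {f : X → Sq k}
    {g : X → Fin k → ℝ} (hf : Measurable f) (hg : Measurable g) :
    Measurable fun x => newb (f x) (g x) := by
  have h := (measurable_newb (k := k)).comp (hf.prodMk hg)
  exact h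

/-- The step of the recursion, as a function of the earlier factor. -/
noncomputable def cstep {k : ℕ} (L : Sq k) (w : Fin k → ℝ) (c : ℝ) : Sq (k + 1) :=
  Fin.cons (Fin.cons (Real.sqrt (c - newb L w ⬝ᵥ newb L w)) (newb L w) : Fin (k + 1) → ℝ)
      (fun i => (Fin.cons 0 (L i) : Fin (k + 1) → ℝ))

lemma measurable_cstep {k : ℕ} {X : Type*} [MeasurableSpace X] {f : X → Sq k}
    {g : X → Fin k → ℝ} {h : X → ℝ} (hf : Measurable f) (hg : Measurable g) (hh : Measurable h) :
    Measurable fun x => cstep (f x) (g x) (h x) := by
  have hb := measurable_newb' hf hg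
  have hbb : Measurable fun x => newb (f x) (g x) ⬝ᵥ newb (f x) (g x) := by
    simp only [dotProduct]
    refine Finset.measurable_sum _ fun i _ => ?_
    exact (measurable_pi_iff.mp hb i).mul (measurable_pi_iff.mp hb i)
  refine measurable_pi_iff.mpr fun i => ?_
  refine Fin.cases ?_ (fun i => ?_) i
  · exact measurable_fcons (hh.sub hbb).sqrt hb
  · exact measurable_fcons measurable_const (measurable_pi_iff.mp hf i)

lemma chol_succ {k : ℕ} (W : Sq (k + 1)) :
    chol (k + 1) W = cstep (chol k (core W)) (fcol W) (W 0 0) := rfl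

lemma measurable_chol (k : ℕ) : Measurable (chol k) := by
  induction k with
  | zero => exact measurable_const
  | succ k ih =>
      have hcore : Measurable fun W : Sq (k + 1) => core W := by
        refine measurable_pi_iff.mpr fun i => measurable_pi_iff.mpr fun j => ?_
        simp only [core]
        fun_prop
      have hf : Measurable fun W : Sq (k + 1) => fcol W := by
        refine measurable_pi_iff.mpr fun i => ?_
        simp only [fcol]
        fun_prop
      have hL : Measurable fun W : Sq (k + 1) => chol k (core W) := ih.comp hcore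
      have h00 : Measurable fun W : Sq (k + 1) => W 0 0 := by fun_prop
      have hfun : chol (k + 1) = fun W => cstep (chol k (core W)) (fcol W) (W 0 0) :=
        funext chol_succ
      rw [hfun]
      exact measurable_cstep hL hf h00

/-- The factor of a positive definite matrix. -/
theorem chol_spec : ∀ (k : ℕ) (W : Sq k), (Matrix.of W).PosDef →
    Matrix.of (chol k W) * (Matrix.of (chol k W))ᵀ = Matrix.of W ∧
      (Matrix.of (chol k W)).det ≠ 0
  | 0, W, _ => by
      refine ⟨Subsingleton.elim _ _, ?_⟩
      rw [Matrix.det_fin_zero]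
      exact one_ne_zero
  | k + 1, W, hW => by
      have hsym := ((pd_iff W).mp hW).1
      have hbrd : W = brd (core W) (fcol W) (W 0 0) := by
        funext i j
        refine Fin.cases ?_ (fun i => ?_) i <;> refine Fin.cases ?_ (fun j => ?_) j
        · rfl
        · simp only [brd_zero_succ, fcol]; exact hsym _ _
        · rfl
        · rfl
      have h1 : (Matrix.of (core W)).PosDef ∧
          fcol W ⬝ᵥ ((Matrix.of (core W))⁻¹ *ᵥ fcol W) < W 0 0 := by
        rw [hbrd] at hW
        exact (pd_brd _ _ _).mp hW
      obtain ⟨hc, hlt⟩ := h1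
      obtain ⟨ih1, ih2⟩ := chol_spec k (core W) hc
      set L : Matrix (Fin k) (Fin k) ℝ := Matrix.of (chol k (core W)) with hL
      have hu : IsUnit L.det := isUnit_iff_ne_zero.mpr ih2
      have hut : IsUnit Lᵀ.det := by rwa [Matrix.det_transpose]
      set b := newb (chol k (core W)) (fcol W) with hb
      have hLb : L *ᵥ b = fcol W := by
        rw [hb, newb, ← hL, Matrix.mulVec_mulVec, Matrix.mul_nonsing_inv _ hu,
          Matrix.one_mulVec]
      have hbb : b ⬝ᵥ b = fcol W ⬝ᵥ ((Matrix.of (core W))⁻¹ *ᵥ fcol W) := by
        rw [← ih1, Matrix.mul_inv_rev, ← Matrix.mulVec_mulVec]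
        have e1 : L⁻¹ *ᵥ fcol W = b := by rw [hb, newb, ← hL]
        rw [e1, Matrix.dotProduct_mulVec, ← Matrix.transpose_nonsing_inv,
          ← Matrix.mulVec_transpose, Matrix.transpose_transpose, e1]
      have hpos : 0 < W 0 0 - b ⬝ᵥ b := by rw [hbb]; linarith
      have e00 : chol (k + 1) W 0 0 = Real.sqrt (W 0 0 - b ⬝ᵥ b) := rfl
      have e0s : ∀ j : Fin k, chol (k + 1) W 0 j.succ = b j := fun j => rfl
      have es0 : ∀ i : Fin k, chol (k + 1) W i.succ 0 = 0 := fun i => rfl
      have ess : ∀ i j : Fin k, chol (k + 1) W i.succ j.succ = L i j := fun i j => rfl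
      have hLL : ∀ i j, ∑ l, L i l * L j l = core W i j := by
        intro i j
        have := congrFun (congrFun ih1 i) j
        simpa [Matrix.mul_apply] using this
      have hLb' : ∀ i, ∑ l, L i l * b l = W i.succ 0 := by
        intro i
        exact congrFun hLb i
      refine ⟨?_, ?_⟩
      · ext i j
        rw [Matrix.mul_apply]
        simp only [Matrix.transpose_apply, Matrix.of_apply]
        rw [Fin.sum_univ_succ]
        refine Fin.cases ?_ (fun i => ?_) i <;> refine Fin.cases ?_ (fun j => ?_) j
        · rw [e00, Real.mul_self_sqrt hpos.le]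
          simp only [e0s]
          simp only [dotProduct]
          ring
        · rw [es0, mul_zero, zero_add]
          simp only [e0s, ess]
          rw [hsym, ← hLb' j]
          exact Finset.sum_congr rfl fun l _ => mul_comm _ _
        · rw [es0, zero_mul, zero_add]
          simp only [e0s, ess]
          exact hLb' i
        · rw [es0, zero_mul, zero_add]
          simp only [ess]
          exact hLL i j
      · have hd : (Matrix.of (chol (k + 1) W)).det = Real.sqrt (W 0 0 - b ⬝ᵥ b) * L.det := by
          rw [Matrix.det_succ_column_zero, Fin.sum_univ_succ]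
          have h0 : ∀ i : Fin k, (-1 : ℝ) ^ ((i.succ : Fin (k + 1)) : ℕ) *
              Matrix.of (chol (k + 1) W) i.succ 0 *
              ((Matrix.of (chol (k + 1) W)).submatrix i.succ.succAbove Fin.succ).det = 0 := by
            intro i
            rw [Matrix.of_apply, es0]
            ring
          rw [Finset.sum_eq_zero fun i _ => h0 i, add_zero, Matrix.of_apply, e00]
          have h2 : (Matrix.of (chol (k + 1) W)).submatrix (Fin.succAbove 0) Fin.succ = L := by
            ext i j
            simp only [Matrix.submatrix_apply, Matrix.of_apply, Fin.succAbove_zero]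
            exact ess i j
          rw [h2]
          simp
        rw [hd]
        exact mul_ne_zero (Real.sqrt_pos.mpr hpos).ne' ih2

end Pool.Agent.U312.SV
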