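import Pool.Agent.U312.SV.Brd

/-!
# The density of the Gram matrix
-/

set_option autoImplicit false
open MeasureTheory Measure Set Metric Matrix
open scoped ENNReal NNReal

namespace Pool.Agent.U312.SV

/-- Integration over the symmetric matrices (Lebesgue measure in the entries). -/
noncomputable def symInt : (k : ℕ) → (Sq k → ℝ≥0∞) → ℝ≥0∞
  | 0, F => F 0
  | k + 1, F => symInt k fun W => ∫⁻ w : Fin k → ℝ, ∫⁻ c : ℝ, F (brd W w c)

lemma symInt_mono : ∀ (k : ℕ) {F G : Sq k → ℝ≥0∞} (_ : ∀ W, F W ≤ G W), symInt k F ≤ symInt k G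
  | 0, _, _, h => h 0
  | k + 1, F, G, h => by
      unfold symInt
      exact symInt_mono k fun W => lintegral_mono fun w => lintegral_mono fun c => h _

lemma symInt_congr (k : ℕ) {F G : Sq k → ℝ≥0∞} (h : ∀ W, F W = G W) : symInt k F = symInt k G := by
  congr 1
  funext W
  exact h W

lemma symInt_zero : ∀ (k : ℕ), symInt k (fun _ => 0) = 0
  | 0 => rfl
  | k + 1 => by
      unfold symInt
      simp only [lintegral_zero]
      exact symInt_zero k

@[fun_prop]
lemma measurable_brd {k : ℕ} {X : Type*} [MeasurableSpace X] {f : X → Sq k} {g : X → Fin k → ℝ}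
    {h : X → ℝ} (hf : Measurable f) (hg : Measurable g) (hh : Measurable h) :
    Measurable fun x => brd (f x) (g x) (h x) := by
  refine measurable_pi_iff.mpr fun i => measurable_pi_iff.mpr fun j => ?_
  refine Fin.cases ?_ (fun i => ?_) i <;> refine Fin.cases ?_ (fun j => ?_) j
  · simpa using hh
  · simp only [brd_zero_succ]; fun_prop
  · simp only [brd_succ_zero]; fun_prop
  · simp only [brd_succ_succ]; fun_prop

lemma measurable_step {k : ℕ} {F : Sq (k + 1) → ℝ≥0∞} (hF : Measurable F) :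
    Measurable fun W : Sq k => ∫⁻ w : Fin k → ℝ, ∫⁻ c : ℝ, F (brd W w c) := by
  have h1 : Measurable fun z : (Sq k × (Fin k → ℝ)) × ℝ => F (brd z.1.1 z.1.2 z.2) :=
    hF.comp (by fun_prop)
  have h2 : Measurable fun z : Sq k × (Fin k → ℝ) => ∫⁻ c : ℝ, F (brd z.1 z.2 c) :=
    h1.lintegral_prod_right'
  exact h2.lintegral_prod_right'

lemma symInt_const_mul : ∀ (k : ℕ) (c : ℝ≥0∞) {F : Sq k → ℝ≥0∞} (_ : Measurable F),
    symInt k (fun W => c * F W) = c * symInt k F
  | 0, _, _, _ => rfl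
  | k + 1, c, F, hF => by
      unfold symInt
      rw [← symInt_const_mul k c (measurable_step hF)]
      refine symInt_congr k fun W => ?_
      have h1 : Measurable fun z : (Fin k → ℝ) × ℝ => F (brd W z.1 z.2) :=
        hF.comp (by fun_prop)
      rw [← lintegral_const_mul _ h1.lintegral_prod_right']
      refine lintegral_congr fun w => ?_
      exact lintegral_const_mul _ (hF.comp (by fun_prop))

/-- adding a multiple of the identity -/
def addI {k : ℕ} (W : Sq k) (τ : ℝ) : Sq k := fun i j => W i j + if i = j then τ else 0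

lemma of_addI {k : ℕ} (W : Sq k) (τ : ℝ) :
    Matrix.of (addI W τ) = Matrix.of W + τ • (1 : Matrix (Fin k) (Fin k) ℝ) := by
  ext i j
  simp [addI, Matrix.one_apply]

lemma addI_brd {k : ℕ} (W : Sq k) (w : Fin k → ℝ) (c τ : ℝ) :
    addI (brd W w c) τ = brd (addI W τ) w (c + τ) := by
  funext i j
  refine Fin.cases ?_ (fun i => ?_) i <;> refine Fin.cases ?_ (fun j => ?_) j
  · simp [addI]
  · simp [addI]
    intro h
    exact absurd h.symm (Fin.succ_ne_zero _)
  · simp [addI]
  · simp [addI]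

/-- Translation invariance. -/
lemma symInt_addI : ∀ (k : ℕ) (τ : ℝ) (F : Sq k → ℝ≥0∞),
    symInt k (fun W => F (addI W τ)) = symInt k F
  | 0, τ, F => by
      change F (addI 0 τ) = F 0
      congr 1
      funext i
      exact i.elim0
  | k + 1, τ, F => by
      unfold symInt
      rw [← symInt_addI k τ (fun W => ∫⁻ w : Fin k → ℝ, ∫⁻ c : ℝ, F (brd W w c))]
      refine symInt_congr k fun W => lintegral_congr fun w => ?_
      simp only [addI_brd]
      exact lintegral_add_right_eq_self (fun c => F (brd (addI W τ) w c)) τ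

lemma continuous_ofdet {k : ℕ} : Continuous fun W : Sq k => (Matrix.of W).det :=
  Continuous.matrix_det (continuous_matrix fun i j => by
    simp only [Matrix.of_apply]; fun_prop)

lemma continuous_quad {k : ℕ} (x : Fin k → ℝ) :
    Continuous fun W : Sq k => x ⬝ᵥ (Matrix.of W *ᵥ x) := by
  simp only [Matrix.mulVec, dotProduct, Matrix.of_apply]
  fun_prop

lemma measurableSet_pd (k : ℕ) : MeasurableSet {W : Sq k | (Matrix.of W).PosDef} := by
  have h1 : {W : Sq k | (Matrix.of W).PosDef} =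
      ({W : Sq k | ∀ i j, W i j = W j i} ∩ {W | ∀ x : Fin k → ℝ, 0 ≤ x ⬝ᵥ (Matrix.of W *ᵥ x)}) ∩
        {W | (Matrix.of W).det ≠ 0} := by
    ext W
    simp only [mem_inter_iff, mem_ofPred_eq]
    constructor
    · intro h
      have h' := (pd_iff W).mp h
      refine ⟨⟨h'.1, fun x => ?_⟩, h.det_pos.ne'⟩
      by_cases hx : x = 0
      · rw [hx]; simp
      · exact (h'.2 x hx).le
    · rintro ⟨⟨h1, h2⟩, h3⟩
      have h4 : (Matrix.of W).PosSemidef := by
        rw [Matrix.posSemidef_iff_dotProduct_mulVec]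
        exact ⟨(herm_iff W).mpr h1, fun x => by simpa using h2 x⟩
      rw [h4.posDef_iff_isUnit, Matrix.isUnit_iff_isUnit_det]
      exact isUnit_iff_ne_zero.mpr h3
  rw [h1]
  refine (MeasurableSet.inter ?_ ?_).inter ?_
  · have : {W : Sq k | ∀ i j, W i j = W j i} = ⋂ i, ⋂ j, {W : Sq k | W i j = W j i} := by
      ext W; simp
    rw [this]
    exact (isClosed_iInter fun i => isClosed_iInter fun j =>
      isClosed_eq (by fun_prop) (by fun_prop)).measurableSet
  · have : {W : Sq k | ∀ x : Fin k → ℝ, 0 ≤ x ⬝ᵥ (Matrix.of W *ᵥ x)} =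
        ⋂ x : Fin k → ℝ, {W : Sq k | 0 ≤ x ⬝ᵥ (Matrix.of W *ᵥ x)} := by
      ext W; simp
    rw [this]
    exact (isClosed_iInter fun x => isClosed_le continuous_const (continuous_quad x)).measurableSet
  · exact (isOpen_ne_fun continuous_ofdet continuous_const).measurableSet

/-- the inverse quadratic form -/
noncomputable def qf {k : ℕ} (W : Sq k) (w : Fin k → ℝ) : ℝ := w ⬝ᵥ ((Matrix.of W)⁻¹ *ᵥ w)

lemma qf_eq {k : ℕ} (W : Sq k) (w : Fin k → ℝ) :
    qf W w = (Matrix.of W).det⁻¹ * (w ⬝ᵥ ((Matrix.of W).adjugate *ᵥ w)) := by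
  unfold qf
  rw [Matrix.inv_def, Ring.inverse_eq_inv', Matrix.smul_mulVec, dotProduct_smul, smul_eq_mul]

lemma measurable_qf {k : ℕ} : Measurable fun z : Sq k × (Fin k → ℝ) => qf z.1 z.2 := by
  simp_rw [qf_eq]
  have h0 : Continuous fun z : Sq k × (Fin k → ℝ) => Matrix.of z.1 :=
    continuous_matrix fun i j => by simp only [Matrix.of_apply]; fun_prop
  have h1 : Measurable fun z : Sq k × (Fin k → ℝ) => (Matrix.of z.1).det⁻¹ :=
    h0.matrix_det.measurable.inv
  have h2 : Continuous fun z : Sq k × (Fin k → ℝ) =>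
      z.2 ⬝ᵥ ((Matrix.of z.1).adjugate *ᵥ z.2) :=
    Continuous.dotProduct continuous_snd (h0.matrix_adjugate.matrix_mulVec continuous_snd)
  exact h1.mul h2.measurable

/-- The integrand of the density formula. -/
noncomputable def wgt {k : ℕ} (p : ℝ) (F : Sq k → ℝ≥0∞) : Sq k → ℝ≥0∞ :=
  {W : Sq k | (Matrix.of W).PosDef}.indicator
    (fun W => ENNReal.ofReal ((Matrix.of W).det ^ p) * F W)

lemma measurable_wgt {k : ℕ} (p : ℝ) {F : Sq k → ℝ≥0∞} (hF : Measurable F) :
    Measurable (wgt p F) := by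
  refine Measurable.indicator ?_ (measurableSet_pd k)
  exact ((continuous_ofdet.measurable.pow_const p).ennreal_ofReal).mul hF

lemma wgt_of_pd {k : ℕ} (p : ℝ) (F : Sq k → ℝ≥0∞) {W : Sq k} (hW : (Matrix.of W).PosDef) :
    wgt p F W = ENNReal.ofReal ((Matrix.of W).det ^ p) * F W := indicator_of_mem (by exact hW) _

lemma wgt_of_not {k : ℕ} (p : ℝ) (F : Sq k → ℝ≥0∞) {W : Sq k} (hW : ¬ (Matrix.of W).PosDef) :
    wgt p F W = 0 := indicator_of_notMem (by exact hW) _

/-- One step of the recursion, fibrewise. -/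
lemma fibre {k : ℕ} (d : ℕ) (F : Sq (k + 1) → ℝ≥0∞) {W : Sq k}
    (hW : (Matrix.of W).PosDef) :
    ENNReal.ofReal ((Matrix.of W).det ^ ((((d + 1 : ℕ) : ℝ) - 1) / 2)) *
      (ENNReal.ofReal ((Real.sqrt (Matrix.of W).det)⁻¹) *
        ∫⁻ w : Fin k → ℝ, ∫⁻ r in Ioi (0 : ℝ), ENNReal.ofReal (r ^ (((d + 1 : ℕ) : ℝ) / 2 - 1)) *
          F (brd W w (qf W w + r))) =
      ∫⁻ w : Fin k → ℝ, ∫⁻ c : ℝ, wgt (((d : ℝ) - 1) / 2) F (brd W w c) := by
  have hdet := hW.det_pos
  set D := (Matrix.of W).det with hD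
  have h1 : ∀ w : Fin k → ℝ, ∫⁻ c : ℝ, wgt (((d : ℝ) - 1) / 2) F (brd W w c) =
      ENNReal.ofReal (D ^ (((d : ℝ) - 1) / 2)) *
        ∫⁻ r in Ioi (0 : ℝ), ENNReal.ofReal (r ^ (((d + 1 : ℕ) : ℝ) / 2 - 1)) *
          F (brd W w (qf W w + r)) := by
    intro w
    rw [← lintegral_indicator measurableSet_Ioi]
    rw [← lintegral_const_mul' _ _ ENNReal.ofReal_ne_top]
    rw [← lintegral_sub_right_eq_self (fun r => ENNReal.ofReal (D ^ (((d : ℝ) - 1) / 2)) *
      (Ioi (0 : ℝ)).indicator (fun r => ENNReal.ofReal (r ^ (((d + 1 : ℕ) : ℝ) / 2 - 1)) *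
          F (brd W w (qf W w + r))) r) (qf W w)]
    refine lintegral_congr fun c => ?_
    by_cases hc : qf W w < c
    · have hpd : (Matrix.of (brd W w c)).PosDef := (pd_brd W w c).mpr ⟨hW, hc⟩
      rw [wgt_of_pd _ _ hpd, indicator_of_mem (by simpa using hc), det_brd W w c hdet.ne',
        ← hD, ← mul_assoc, ← ENNReal.ofReal_mul (by positivity)]
      have e1 : qf W w + (c - qf W w) = c := by ring
      rw [e1]
      congr 2
      change (D * (c - qf W w)) ^ (((d : ℝ) - 1) / 2) = _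
      rw [Real.mul_rpow hdet.le (by linarith)]
      congr 2
      push_cast
      ring
    · have hpd : ¬ (Matrix.of (brd W w c)).PosDef := fun h => hc ((pd_brd W w c).mp h).2
      rw [wgt_of_not _ _ hpd, indicator_of_notMem (by simpa using hc), mul_zero]
  simp_rw [h1]
  rw [lintegral_const_mul' _ _ ENNReal.ofReal_ne_top, ← mul_assoc]
  congr 1
  rw [← ENNReal.ofReal_mul (by positivity)]
  congr 1
  rw [Real.sqrt_eq_rpow, ← Real.rpow_neg hdet.le, ← Real.rpow_add hdet]
  congr 1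
  push_cast
  ring

lemma measurable_gr {k m : ℕ} : Measurable fun A : Fin k → Fin m → ℝ => gr A := by
  refine measurable_pi_iff.mpr fun i => measurable_pi_iff.mpr fun j => ?_
  simp only [gr, dotProduct]
  fun_prop

/-- Adding a row. -/
lemma lintegral_cons {k m : ℕ} (F : Sq (k + 1) → ℝ≥0∞) (hF : Measurable F) :
    ∫⁻ A : Fin (k + 1) → Fin m → ℝ, F (gr A) =
      ∫⁻ A : Fin k → Fin m → ℝ, ∫⁻ a : Fin m → ℝ,
        F (brd (gr A) (fun i => A i ⬝ᵥ a) (a ⬝ᵥ a)) := by
  have e := (volume_preserving_piFinSuccAbove (fun _ : Fin (k + 1) => Fin m → ℝ) 0).symm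
  have hm : Measurable fun A : Fin (k + 1) → Fin m → ℝ => F (gr A) := hF.comp measurable_gr
  rw [← e.lintegral_comp hm, volume_eq_prod]
  have h1 : ∀ z : (Fin m → ℝ) × (Fin k → Fin m → ℝ),
      F (gr ((MeasurableEquiv.piFinSuccAbove (fun _ : Fin (k + 1) => Fin m → ℝ) 0).symm z)) =
      F (brd (gr z.2) (fun i => z.2 i ⬝ᵥ z.1) (z.1 ⬝ᵥ z.1)) := by
    intro z
    rw [← gr_cons]
    congr 2
    exact Fin.insertNth_zero' z.1 z.2
  simp_rw [h1]
  have hm2 : Measurable fun z : (Fin m → ℝ) × (Fin k → Fin m → ℝ) =>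
      F (brd (gr z.2) (fun i => z.2 i ⬝ᵥ z.1) (z.1 ⬝ᵥ z.1)) := by
    refine hF.comp ?_
    refine measurable_brd (measurable_gr.comp measurable_snd) ?_ ?_
    · refine measurable_pi_iff.mpr fun i => ?_
      simp only [dotProduct]
      fun_prop
    · simp only [dotProduct]
      fun_prop
  rw [lintegral_prod_symm' _ hm2]

/-- **The density of the Gram matrix.** -/
theorem gram_density : ∀ (k d : ℕ), ∃ C : ℝ≥0∞, ∀ F : Sq k → ℝ≥0∞, Measurable F →
    ∫⁻ A : Fin k → Fin (k + d) → ℝ, F (gr A) = C * symInt k (wgt (((d : ℝ) - 1) / 2) F) := by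
  intro k
  induction k with
  | zero =>
    intro d
    refine ⟨1, fun F hF => ?_⟩
    have hm : Measurable fun A : Fin 0 → Fin (0 + d) → ℝ => F (gr A) := hF.comp measurable_gr
    rw [volume_pi, Measure.pi_of_empty, lintegral_dirac' _ hm, one_mul]
    change _ = wgt _ F 0
    have h0 : (Matrix.of (0 : Sq 0)).PosDef := by
      rw [pd_iff]
      refine ⟨fun i => i.elim0, fun x hx => ?_⟩
      exact absurd (Subsingleton.elim x 0) hx
    rw [wgt_of_pd _ _ h0, Matrix.det_fin_zero, Real.one_rpow, ENNReal.ofReal_one, one_mul]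
    congr 1
    exact Subsingleton.elim _ _
  | succ k ih =>
    intro d
    obtain ⟨C, hC⟩ := ih (d + 1)
    refine ⟨C * cst (d + 1), fun F hF => ?_⟩
    have hn : k + 1 + d = k + (d + 1) := by omega
    rw [hn, lintegral_cons F hF]
    have hae : ∀ᵐ A : Fin k → Fin (k + (d + 1)) → ℝ, (Matrix.of (gr A)).PosDef := by
      have h1 := hC ({W : Sq k | (Matrix.of W).PosDef}ᶜ.indicator fun _ => 1)
        (measurable_const.indicator (measurableSet_pd k).compl)
      have h2 : symInt k (wgt ((((d + 1 : ℕ) : ℝ) - 1) / 2)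
          ({W : Sq k | (Matrix.of W).PosDef}ᶜ.indicator fun _ => 1)) = 0 := by
        rw [← symInt_zero k]
        refine symInt_congr k fun W => ?_
        by_cases hW : (Matrix.of W).PosDef
        · rw [wgt_of_pd _ _ hW, indicator_of_notMem (by simpa using hW), mul_zero]
        · exact wgt_of_not _ _ hW
      rw [h2, mul_zero] at h1
      rw [lintegral_eq_zero_iff] at h1
      · filter_upwards [h1] with A hA
        by_contra hcon
        simp only [Pi.zero_apply] at hA
        rw [indicator_of_mem (by simpa using hcon)] at hA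
        exact one_ne_zero hA
      · exact (measurable_const.indicator (measurableSet_pd k).compl).comp measurable_gr
    set Ψ : Sq k → ℝ≥0∞ := fun W => cst (d + 1) *
      (ENNReal.ofReal ((Real.sqrt (Matrix.of W).det)⁻¹) *
        ∫⁻ w : Fin k → ℝ, ∫⁻ r in Ioi (0 : ℝ), ENNReal.ofReal (r ^ (((d + 1 : ℕ) : ℝ) / 2 - 1)) *
          F (brd W w (qf W w + r))) with hΨ
    have hΨm : Measurable Ψ := by
      have h1 : Measurable fun z : (Sq k × (Fin k → ℝ)) × ℝ =>
          ENNReal.ofReal (z.2 ^ (((d + 1 : ℕ) : ℝ) / 2 - 1)) *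
          F (brd z.1.1 z.1.2 (qf z.1.1 z.1.2 + z.2)) := by
        refine ((measurable_snd.pow_const _).ennreal_ofReal).mul (hF.comp ?_)
        refine measurable_brd (by fun_prop) (by fun_prop) ?_
        exact (measurable_qf.comp measurable_fst).add measurable_snd
      have h2 : Measurable fun z : Sq k × (Fin k → ℝ) =>
          ∫⁻ r in Ioi (0 : ℝ), ENNReal.ofReal (r ^ (((d + 1 : ℕ) : ℝ) / 2 - 1)) *
          F (brd z.1 z.2 (qf z.1 z.2 + r)) := h1.lintegral_prod_right'
      have h3 : Measurable fun W : Sq k => ∫⁻ w : Fin k → ℝ,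
          ∫⁻ r in Ioi (0 : ℝ), ENNReal.ofReal (r ^ (((d + 1 : ℕ) : ℝ) / 2 - 1)) *
          F (brd W w (qf W w + r)) := h2.lintegral_prod_right'
      refine measurable_const.mul (Measurable.mul ?_ h3)
      exact (continuous_ofdet.measurable.sqrt.inv).ennreal_ofReal
    have hrow : ∀ᵐ A : Fin k → Fin (k + (d + 1)) → ℝ, ∫⁻ a : Fin (k + (d + 1)) → ℝ,
        F (brd (gr A) (fun i => A i ⬝ᵥ a) (a ⬝ᵥ a)) = Ψ (gr A) := by
      filter_upwards [hae] with A hA
      have h1 := row (by omega : 1 ≤ d + 1) A (by rw [← of_gr]; exact hA.det_pos)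
        (fun w c => F (brd (gr A) w c)) (hF.comp (by fun_prop))
      rw [h1, hΨ, mul_assoc]
      rfl
    rw [lintegral_congr_ae hrow, hC Ψ hΨm, mul_assoc]
    congr 1
    have hstep : Measurable fun W : Sq k => ∫⁻ w : Fin k → ℝ, ∫⁻ c : ℝ,
        wgt (((d : ℝ) - 1) / 2) F (brd W w c) := measurable_step (measurable_wgt _ hF)
    change _ = cst (d + 1) * symInt k (fun W => ∫⁻ w : Fin k → ℝ, ∫⁻ c : ℝ,
        wgt (((d : ℝ) - 1) / 2) F (brd W w c))
    rw [← symInt_const_mul k _ hstep]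
    refine symInt_congr k fun W => ?_
    by_cases hW : (Matrix.of W).PosDef
    · rw [wgt_of_pd _ _ hW, ← fibre d F hW, hΨ]
      simp only
      rw [mul_left_comm]
    · rw [wgt_of_not _ _ hW]
      have h1 : ∀ (w : Fin k → ℝ) (c : ℝ), wgt (((d : ℝ) - 1) / 2) F (brd W w c) = 0 := by
        intro w c
        exact wgt_of_not _ _ fun h => hW ((pd_brd W w c).mp h).1
      simp [h1]

end Pool.Agent.U312.SV
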