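import Pool.Agent.U312.SV.Avg
import Pool.Agent.H992R2.Rot

/-!
# Gaussian measures and the shift inequality
-/

set_option autoImplicit false
open MeasureTheory Measure Set Metric Matrix ProbabilityTheory
open scoped ENNReal NNReal
open Pool.Agent.H892R2.Proj Pool.Agent.H992R2

namespace Pool.Agent.U312.SV

variable {n : ℕ}

theorem lintegral_fin_prod' {n : ℕ} {E : Type*} [MeasurableSpace E] (μ : Fin n → Measure E)
    [∀ i, SigmaFinite (μ i)] (f : Fin n → E → ℝ≥0∞) (hf : ∀ i, Measurable (f i)) :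
    ∫⁻ x : Fin n → E, ∏ i, f i (x i) ∂(Measure.pi μ) = ∏ i, ∫⁻ x, f i x ∂(μ i) := by
  induction n with
  | zero => simp
  | succ n n_ih =>
      calc
        _ = ∫⁻ x : E × (Fin n → E),
            f 0 x.1 * ∏ i : Fin n, f (Fin.succ i) (x.2 i)
            ∂((μ 0).prod (Measure.pi (fun i ↦ μ i.succ))) := by
          rw [← ((measurePreserving_piFinSuccAbove μ 0).symm).lintegral_comp_emb
            (MeasurableEquiv.measurableEmbedding _)]
          simp_rw [MeasurableEquiv.piFinSuccAbove_symm_apply, Fin.insertNthEquiv,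
            Fin.prod_univ_succ, Fin.insertNth_zero, Equiv.coe_fn_mk, Fin.cons_succ,
            Fin.zero_succAbove, cast_eq, Fin.cons_zero]
        _ = (∫⁻ x, f 0 x ∂μ 0)
            * ∏ i : Fin n, ∫⁻ (x : E), f (Fin.succ i) x ∂(μ i.succ) := by
          rw [← n_ih (fun i => μ i.succ) (fun i => f i.succ) (fun i => hf _)]
          exact lintegral_prod_mul (hf 0).aemeasurable (Finset.measurable_prod _ (fun i _ =>
            (hf _).comp (measurable_pi_apply i))).aemeasurable
        _ = ∏ i, ∫⁻ x, f i x ∂(μ i) := by rw [Fin.prod_univ_succ]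

theorem pi_withDensity' {n : ℕ} {E : Type*} [MeasurableSpace E] (ν : Measure E)
    [SigmaFinite ν] (g : E → ℝ≥0∞) (hg : Measurable g) [SigmaFinite (ν.withDensity g)] :
    Measure.pi (fun _ : Fin n => ν.withDensity g) =
      (Measure.pi (fun _ : Fin n => ν)).withDensity (fun y => ∏ i, g (y i)) := by
  apply Measure.pi_eq
  intro s hs
  rw [withDensity_apply _ (MeasurableSet.univ_pi hs), Measure.restrict_pi_pi,
    lintegral_fin_prod' _ _ (fun _ => hg)]
  apply Finset.prod_congr rfl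
  intro i _
  rw [withDensity_apply _ (hs i)]

/-- The density of the standard Gaussian vector. -/
noncomputable def g1 (n : ℕ) (x : Fin n → ℝ) : ℝ≥0∞ :=
  ENNReal.ofReal ((Real.sqrt (2 * Real.pi))⁻¹ ^ n * Real.exp (-(x ⬝ᵥ x) / 2))

lemma measurable_g1 (n : ℕ) : Measurable (g1 n) := by
  unfold g1
  simp only [dotProduct]
  fun_prop

lemma gam_eq (n : ℕ) : gam (Fin n) = (volume : Measure (Fin n → ℝ)).withDensity (g1 n) := by
  have h3 : (gaussianReal 0 1) = (volume : Measure ℝ).withDensity (gaussianPDF 0 1) :=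
    gaussianReal_of_var_ne_zero 0 one_ne_zero
  have hsf : SigmaFinite ((volume : Measure ℝ).withDensity (gaussianPDF 0 1)) := by
    rw [← h3]
    infer_instance
  unfold gam
  rw [h3, pi_withDensity' (n := n) (volume : Measure ℝ) _ (measurable_gaussianPDF 0 1),
    ← volume_pi]
  congr 1
  funext y
  have h2 : ∀ i, gaussianPDF 0 1 (y i) =
      ENNReal.ofReal ((Real.sqrt (2 * Real.pi))⁻¹ * Real.exp (-(y i * y i) / 2)) := by
    intro i
    rw [gaussianPDF_def, gaussianPDFReal_def]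
    simp [sq]
  simp_rw [h2]
  rw [← ENNReal.ofReal_prod_of_nonneg (fun i _ => by positivity)]
  unfold g1
  congr 1
  rw [Finset.prod_mul_distrib, Finset.prod_const, Finset.card_univ, Fintype.card_fin,
    ← Real.exp_sum]
  congr 2
  rw [← Finset.sum_div, Finset.sum_neg_distrib]
  rfl

lemma muM_eq (n : ℕ) : muM n n = (volume : Measure (Sq n)).withDensity (fun A => ∏ i, g1 n (A i)) := by
  have hg := gam_eq n
  have hsf : SigmaFinite ((volume : Measure (Fin n → ℝ)).withDensity (g1 n)) := by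
    rw [← hg]
    infer_instance
  have h1 : muM n n = Measure.pi (fun _ : Fin n => gam (Fin n)) := rfl
  rw [h1, hg, pi_withDensity' (n := n) (volume : Measure (Fin n → ℝ)) _ (measurable_g1 n)]
  rfl

/-- The normalising constant. -/
noncomputable def nrm (B : Sq n) : ℝ≥0∞ :=
  ENNReal.ofReal (((Real.sqrt (2 * Real.pi))⁻¹ ^ n) ^ n * Real.exp (-(∑ i, B i ⬝ᵥ B i) / 2))

lemma prod_g1 (A B : Sq n) : ∏ i, g1 n ((A - B) i) =
    nrm B * (ENNReal.ofReal (Real.exp (-(trc (gr A) / 2))) *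
      ENNReal.ofReal (Real.exp (ip (Matrix.of A) (Matrix.of B)))) := by
  unfold g1 nrm
  rw [← ENNReal.ofReal_prod_of_nonneg (fun i _ => by positivity), ← ENNReal.ofReal_mul
    (by positivity), ← ENNReal.ofReal_mul (by positivity)]
  congr 1
  rw [Finset.prod_mul_distrib, Finset.prod_const, Finset.card_univ, Fintype.card_fin,
    ← Real.exp_sum, mul_assoc]
  congr 1
  rw [← Real.exp_add, ← Real.exp_add]
  congr 1
  have h1 : trc (gr A) = ∑ i, A i ⬝ᵥ A i := rfl
  have h2 : ip (Matrix.of A) (Matrix.of B) = ∑ i, A i ⬝ᵥ B i := rfl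
  rw [h1, h2, ← Finset.sum_div, Finset.sum_neg_distrib]
  have h3 : ∑ i, (A - B) i ⬝ᵥ (A - B) i =
      (∑ i, A i ⬝ᵥ A i) - 2 * (∑ i, A i ⬝ᵥ B i) + ∑ i, B i ⬝ᵥ B i := by
    rw [Finset.mul_sum, ← Finset.sum_sub_distrib, ← Finset.sum_add_distrib]
    refine Finset.sum_congr rfl fun i _ => ?_
    rw [Pi.sub_apply, sub_dotProduct, dotProduct_sub, dotProduct_sub, dotProduct_comm (B i) (A i)]
    ring
  rw [h3]
  ring

lemma measurable_ipexp (B : Matrix (Fin n) (Fin n) ℝ) :
    Measurable fun A : Sq n => ENNReal.ofReal (Real.exp (ip (Matrix.of A) B)) := by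
  have : Measurable fun A : Sq n => ip (Matrix.of A) B := by
    unfold ip
    simp only [Matrix.of_apply]
    fun_prop
  exact (Real.measurable_exp.comp this).ennreal_ofReal

lemma measurable_trexp :
    Measurable fun A : Sq n => ENNReal.ofReal (Real.exp (-(trc (gr A) / 2))) := by
  have hg : Measurable fun A : Sq n => gr A := measurable_gr
  exact (Real.measurable_exp.comp (((measurable_trc.comp hg).div_const 2).neg)).ennreal_ofReal

lemma lintegral_muM (B : Sq n) (F : Sq n → ℝ≥0∞) (hF : Measurable F) :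
    ∫⁻ G : Sq n, F (B + G) ∂muM n n =
      nrm B * ∫⁻ A : Sq n, (F A * ENNReal.ofReal (Real.exp (-(trc (gr A) / 2)))) *
        ENNReal.ofReal (Real.exp (ip (Matrix.of A) (Matrix.of B))) := by
  have hm1 : Measurable fun A : Sq n => ∏ i, g1 n (A i) :=
    Finset.measurable_prod _ fun i _ => (measurable_g1 n).comp (measurable_pi_apply i)
  have hm2 : Measurable fun G : Sq n => F (B + G) := hF.comp (measurable_const_add B)
  rw [muM_eq, lintegral_withDensity_eq_lintegral_mul _ hm1 hm2]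
  rw [← lintegral_sub_right_eq_self (fun G : Sq n => ((fun A : Sq n => ∏ i, g1 n (A i)) *
    fun G => F (B + G)) G) B]
  have hmm : Measurable fun A : Sq n => (F A * ENNReal.ofReal (Real.exp (-(trc (gr A) / 2)))) *
        ENNReal.ofReal (Real.exp (ip (Matrix.of A) (Matrix.of B))) :=
    (hF.mul measurable_trexp).mul (measurable_ipexp _)
  rw [← lintegral_const_mul _ hmm]
  refine lintegral_congr fun A => ?_
  simp only [Pi.mul_apply]
  rw [prod_g1, add_sub_cancel]
  ring

/-- **The shift inequality for the Gaussian measure.** -/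
theorem shift_muM (B : Sq n) {τ : ℝ} (hτ : 0 < τ) :
    ENNReal.ofReal (Real.exp (-(n * τ / 2))) *
      ∫⁻ G : Sq n, ENNReal.ofReal (kap τ (gr (B + G))) ∂muM n n ≤
      muM n n {G : Sq n | gr (B + G) ∈ cone n τ} := by
  have hg : Measurable fun A : Sq n => gr A := measurable_gr
  have h1 := lintegral_muM B (fun A => ENNReal.ofReal (kap τ (gr A)))
    ((measurable_kap τ).comp hg).ennreal_ofReal
  have h2 := lintegral_muM B (fun A => (cone n τ).indicator 1 (gr A))
    (((measurable_const (a := (1 : ℝ≥0∞))).indicator (measurableSet_cone τ)).comp hg)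
  have h3 : ∫⁻ G : Sq n, (cone n τ).indicator 1 (gr (B + G)) ∂muM n n =
      muM n n {G : Sq n | gr (B + G) ∈ cone n τ} := by
    have hms : MeasurableSet {G : Sq n | gr (B + G) ∈ cone n τ} :=
      (measurableSet_cone τ).preimage (hg.comp (measurable_const_add B))
    rw [← lintegral_indicator_one hms]
    rfl
  rw [← h3, h1, h2, mul_left_comm]
  gcongr
  exact shift (Matrix.of B) hτ

/-- The Gaussian integral. -/
theorem gauss_integral (A : Sq n) (hA : (Matrix.of A).det ≠ 0) {τ : ℝ} (hτ : 0 < τ) :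
    ∫⁻ z : Fin n → ℝ, ENNReal.ofReal (Real.exp (-(τ *
      (((Matrix.of A)⁻¹ *ᵥ z) ⬝ᵥ ((Matrix.of A)⁻¹ *ᵥ z)) / 2))) ∂gam (Fin n) =
      ENNReal.ofReal (kap τ (gr A)) := by
  set a : Matrix (Fin n) (Fin n) ℝ := Matrix.of A with ha
  have hu : IsUnit a.det := isUnit_iff_ne_zero.mpr hA
  have hut : IsUnit aᵀ.det := by rwa [Matrix.det_transpose]
  set M : Matrix (Fin n) (Fin n) ℝ := 1 + τ • (a⁻¹ᵀ * a⁻¹) with hM
  have hMpd : M.PosDef := by
    have h1 : (a⁻¹ᵀ * a⁻¹).PosSemidef := by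
      have := Matrix.posSemidef_conjTranspose_mul_self a⁻¹
      rwa [Matrix.conjTranspose_eq_transpose_of_trivial] at this
    exact Matrix.PosDef.one.add_posSemidef (h1.smul hτ.le)
  obtain ⟨c1, c2⟩ := chol_spec n (fun i j => M i j) hMpd
  set L : Matrix (Fin n) (Fin n) ℝ := Matrix.of (chol n (fun i j => M i j)) with hL
  have c1' : L * Lᵀ = M := c1
  have hLt : Lᵀ.det ≠ 0 := by rwa [Matrix.det_transpose]
  have hquad : ∀ z : Fin n → ℝ, z ⬝ᵥ z + τ * ((a⁻¹ *ᵥ z) ⬝ᵥ (a⁻¹ *ᵥ z)) =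
      (Lᵀ *ᵥ z) ⬝ᵥ (Lᵀ *ᵥ z) := by
    intro z
    have h1 : (Lᵀ *ᵥ z) ⬝ᵥ (Lᵀ *ᵥ z) = z ⬝ᵥ (M *ᵥ z) := by
      rw [← c1', ← Matrix.mulVec_mulVec, Matrix.dotProduct_mulVec z L, ← Matrix.mulVec_transpose]
    rw [h1, hM, Matrix.add_mulVec, Matrix.one_mulVec, Matrix.smul_mulVec, ← Matrix.mulVec_mulVec,
      dotProduct_add, dotProduct_smul, smul_eq_mul, Matrix.dotProduct_mulVec z a⁻¹ᵀ,
      ← Matrix.mulVec_transpose, Matrix.transpose_transpose]
  have hdetM : (Matrix.of (gr A)).det * M.det = (Matrix.of (addI (gr A) τ)).det := by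
    rw [← Matrix.det_mul, of_addI, of_gr', ← ha, hM]
    congr 1
    rw [Matrix.mul_add, Matrix.mul_one, Matrix.mul_smul]
    congr 2
    rw [Matrix.transpose_nonsing_inv, Matrix.mul_assoc, ← Matrix.mul_assoc aᵀ,
      Matrix.mul_nonsing_inv _ hut, Matrix.one_mul, Matrix.mul_nonsing_inv _ hu]
  have hdetgr : 0 < (Matrix.of (gr A)).det := by
    rw [of_gr', ← ha, Matrix.det_mul, Matrix.det_transpose]
    exact mul_self_pos.mpr hA
  have hkap : kap τ (gr A) = |Lᵀ.det⁻¹| := by
    have h1 : L.det * L.det = M.det := by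
      have := congrArg Matrix.det c1'
      rwa [Matrix.det_mul, Matrix.det_transpose] at this
    unfold kap
    rw [← hdetM, ← h1, Matrix.det_transpose]
    have h2 : (Matrix.of (gr A)).det / ((Matrix.of (gr A)).det * (L.det * L.det)) =
        (L.det⁻¹) ^ 2 := by
      field_simp
    rw [h2, Real.sqrt_sq_eq_abs]
  have hmeas : Measurable fun z : Fin n → ℝ => ENNReal.ofReal (Real.exp (-(τ *
      ((a⁻¹ *ᵥ z) ⬝ᵥ (a⁻¹ *ᵥ z)) / 2))) := by
    simp only [Matrix.mulVec, dotProduct]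
    fun_prop
  rw [gam_eq, lintegral_withDensity_eq_lintegral_mul _ (measurable_g1 n) hmeas]
  have h1 : ∀ z : Fin n → ℝ, (g1 n * fun z => ENNReal.ofReal (Real.exp (-(τ *
      ((a⁻¹ *ᵥ z) ⬝ᵥ (a⁻¹ *ᵥ z)) / 2)))) z = g1 n (Lᵀ *ᵥ z) := by
    intro z
    simp only [Pi.mul_apply, g1]
    rw [← ENNReal.ofReal_mul (by positivity), mul_assoc, ← Real.exp_add, ← hquad z]
    congr 3
    ring
  simp_rw [h1]
  have hLm : Measurable fun z : Fin n → ℝ => Lᵀ *ᵥ z := by
    refine measurable_pi_iff.mpr fun i => ?_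
    simp only [Matrix.mulVec, dotProduct]
    fun_prop
  rw [← lintegral_map (measurable_g1 n) hLm]
  have hmap := Real.map_matrix_volume_pi_eq_smul_volume_pi hLt
  have : (fun z : Fin n → ℝ => Lᵀ *ᵥ z) = (Matrix.toLin' Lᵀ) := by
    funext a; simp
  rw [this, hmap, lintegral_smul_measure, hkap]
  have hone : ∫⁻ y : Fin n → ℝ, g1 n y = 1 := by
    have h2 : gam (Fin n) univ = 1 := measure_univ
    rw [gam_eq, withDensity_apply _ MeasurableSet.univ, Measure.restrict_univ] at h2
    exact h2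
  rw [hone, smul_eq_mul, mul_one]

end Pool.Agent.U312.SV
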