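import Mathlib

/-!
# One-dimensional Gaussian estimates
-/

set_option autoImplicit false
open MeasureTheory Measure Set ProbabilityTheory
open scoped ENNReal NNReal

namespace Pool.Agent.U312.SV

/-- The standard normal density. -/
noncomputable def ph (x : ℝ) : ℝ := (Real.sqrt (2 * Real.pi))⁻¹ * Real.exp (-(x ^ 2) / 2)

lemma ph_pos (x : ℝ) : 0 < ph x := by unfold ph; positivity

@[fun_prop]
lemma continuous_ph : Continuous ph := by unfold ph; fun_prop

lemma ph_neg (x : ℝ) : ph (-x) = ph x := by unfold ph; simp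

lemma gauss_eq : gaussianReal 0 1 =
    (volume : Measure ℝ).withDensity (fun x => ENNReal.ofReal (ph x)) := by
  rw [gaussianReal_of_var_ne_zero 0 one_ne_zero]
  congr 1
  funext x
  rw [gaussianPDF_def, gaussianPDFReal_def]
  simp [ph]

lemma lintegral_gauss (f : ℝ → ℝ≥0∞) (hf : Measurable f) :
    ∫⁻ x, f x ∂gaussianReal 0 1 = ∫⁻ x, ENNReal.ofReal (ph x) * f x := by
  rw [gauss_eq, lintegral_withDensity_eq_lintegral_mul _ continuous_ph.measurable.ennreal_ofReal hf]
  rfl

lemma lintegral_ph : ∫⁻ x, ENNReal.ofReal (ph x) = 1 := by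
  have h := lintegral_gauss (fun _ => 1) measurable_const
  simp only [mul_one, lintegral_one, measure_univ] at h
  exact h.symm

/-- The integrand. -/
noncomputable def psi (a x : ℝ) : ℝ := if x = 0 then 0 else Real.exp (-(a ^ 2 / (2 * x ^ 2)))

lemma psi_nonneg (a x : ℝ) : 0 ≤ psi a x := by
  unfold psi
  split_ifs
  · exact le_rfl
  · exact (Real.exp_pos _).le

lemma measurable_psi (a : ℝ) : Measurable (psi a) := by
  unfold psi
  exact Measurable.ite (measurableSet_singleton 0) measurable_const (by fun_prop)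

lemma psi_neg (a x : ℝ) : psi a (-x) = psi a x := by
  unfold psi
  simp

lemma psi_mono (a : ℝ) {x y : ℝ} (h : |x| ≤ |y|) : psi a x ≤ psi a y := by
  by_cases hx : x = 0
  · subst hx
    have : psi a 0 = 0 := by simp [psi]
    rw [this]
    exact psi_nonneg a y
  · have hy : y ≠ 0 := by
      intro hy
      rw [hy, abs_zero] at h
      exact hx (abs_nonpos_iff.mp h)
    unfold psi
    rw [if_neg hx, if_neg hy]
    apply Real.exp_le_exp.mpr
    apply neg_le_neg
    have h2 : x ^ 2 ≤ y ^ 2 := sq_le_sq.mpr h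
    have h3 : 0 < x ^ 2 := by positivity
    gcongr

/-- The key substitution. -/
lemma half {a : ℝ} (ha : 0 < a) :
    (∫⁻ x in Ioi (0 : ℝ), ENNReal.ofReal (ph (x - a / x))) +
      ∫⁻ x in Ioi (0 : ℝ), ENNReal.ofReal (ph (x - a / x)) = 1 := by
  have h1 : ∫⁻ x in Ioi (0 : ℝ), ENNReal.ofReal (ph (x - a / x)) =
      ∫⁻ x in Ioi (0 : ℝ), ENNReal.ofReal (a / x ^ 2) * ENNReal.ofReal (ph (x - a / x)) := by
    have himg : (fun x : ℝ => a / x) '' Ioi 0 = Ioi 0 := by
      ext y
      constructor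
      · rintro ⟨x, hx, rfl⟩
        exact div_pos ha hx
      · intro hy
        have hy' : (0 : ℝ) < y := hy
        exact ⟨a / y, div_pos ha hy', by field_simp⟩
    have hinj : InjOn (fun x : ℝ => a / x) (Ioi 0) := by
      intro x hx y hy hxy
      have hx' : (0 : ℝ) < x := hx
      have hy' : (0 : ℝ) < y := hy
      simp only at hxy
      field_simp at hxy
      exact hxy.symm
    have hder : ∀ x ∈ Ioi (0 : ℝ), HasDerivWithinAt (fun x : ℝ => a / x) (-(a / x ^ 2)) (Ioi 0) x := by
      intro x hx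
      have hx' : (0 : ℝ) < x := hx
      have := ((hasDerivAt_inv hx'.ne').const_mul a).hasDerivWithinAt (s := Ioi 0)
      refine this.congr_deriv ?_ |>.congr (fun y _ => by rw [div_eq_mul_inv]) (by rw [div_eq_mul_inv])
      field_simp
    have := lintegral_image_eq_lintegral_abs_deriv_mul measurableSet_Ioi hder hinj
      (fun x => ENNReal.ofReal (ph (x - a / x)))
    rw [himg] at this
    rw [this]
    refine setLIntegral_congr_fun measurableSet_Ioi fun x hx => ?_
    have hx' : (0 : ℝ) < x := hx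
    congr 2
    · rw [abs_neg, abs_of_pos (by positivity)]
    · rw [← ph_neg]
      congr 1
      field_simp
      ring
  have h2 : ∫⁻ x in Ioi (0 : ℝ), ENNReal.ofReal (1 + a / x ^ 2) *
      ENNReal.ofReal (ph (x - a / x)) = 1 := by
    have hmono : StrictMonoOn (fun x : ℝ => x - a / x) (Ioi 0) := by
      intro x hx y hy hxy
      have hx' : (0 : ℝ) < x := hx
      have : a / y < a / x := div_lt_div_of_pos_left ha hx' hxy
      simp only
      linarith
    have himg : (fun x : ℝ => x - a / x) '' Ioi 0 = univ := by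
      rw [eq_univ_iff_forall]
      intro y
      set s := Real.sqrt (y ^ 2 + 4 * a) with hs
      have hs2 : s ^ 2 = y ^ 2 + 4 * a := Real.sq_sqrt (by positivity)
      have hs0 : 0 ≤ s := Real.sqrt_nonneg _
      have hpos : 0 < (y + s) / 2 := by
        have : |y| < s := by
          rw [hs, ← Real.sqrt_sq_eq_abs]
          exact Real.sqrt_lt_sqrt (sq_nonneg _) (by linarith)
        have := neg_abs_le y
        linarith
      refine ⟨(y + s) / 2, hpos, ?_⟩
      simp only
      rw [sub_eq_iff_eq_add, ← sub_eq_iff_eq_add', eq_div_iff hpos.ne']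
      nlinarith
    have hder : ∀ x ∈ Ioi (0 : ℝ), HasDerivWithinAt (fun x : ℝ => x - a / x) (1 + a / x ^ 2)
        (Ioi 0) x := by
      intro x hx
      have hx' : (0 : ℝ) < x := hx
      have h3 := ((hasDerivAt_id x).sub ((hasDerivAt_inv hx'.ne').const_mul a)).hasDerivWithinAt
        (s := Ioi 0)
      refine (h3.congr_deriv ?_).congr (fun y _ => by simp [div_eq_mul_inv])
        (by simp [div_eq_mul_inv])
      field_simp
      ring
    have := lintegral_image_eq_lintegral_abs_deriv_mul measurableSet_Ioi hder hmono.injOn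
      (fun x => ENNReal.ofReal (ph x))
    rw [himg, Measure.restrict_univ, lintegral_ph] at this
    rw [this]
    refine setLIntegral_congr_fun measurableSet_Ioi fun x hx => ?_
    have hx' : (0 : ℝ) < x := hx
    rw [abs_of_pos (by positivity)]
  rw [← h2]
  nth_rewrite 2 [h1]
  have hm1 : Measurable fun x : ℝ => ENNReal.ofReal (ph (x - a / x)) := by
    have : Measurable fun x : ℝ => x - a / x := by fun_prop
    exact (continuous_ph.measurable.comp this).ennreal_ofReal
  rw [← lintegral_add_left hm1]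
  refine setLIntegral_congr_fun measurableSet_Ioi fun x hx => ?_
  have hx' : (0 : ℝ) < x := hx
  rw [ENNReal.ofReal_add zero_le_one (by positivity), ENNReal.ofReal_one, add_mul, one_mul]

/-- The half-line integral. -/
lemma levy_half {a : ℝ} :
    ∫⁻ x in Ioi (0 : ℝ), ENNReal.ofReal (ph x) * ENNReal.ofReal (psi a x) =
      ENNReal.ofReal (Real.exp (-a)) *
        ∫⁻ x in Ioi (0 : ℝ), ENNReal.ofReal (ph (x - a / x)) := by
  have hm1 : Measurable fun x : ℝ => ENNReal.ofReal (ph (x - a / x)) := by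
    have : Measurable fun x : ℝ => x - a / x := by fun_prop
    exact (continuous_ph.measurable.comp this).ennreal_ofReal
  rw [← lintegral_const_mul _ hm1]
  refine setLIntegral_congr_fun measurableSet_Ioi fun x hx => ?_
  have hx' : (0 : ℝ) < x := hx
  rw [← ENNReal.ofReal_mul (ph_pos _).le, ← ENNReal.ofReal_mul (Real.exp_pos _).le]
  congr 1
  unfold ph psi
  rw [if_neg hx'.ne']
  have h1 : ∀ u v w : ℝ, u * Real.exp v * Real.exp w = u * Real.exp (v + w) := by
    intro u v w
    rw [Real.exp_add]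
    ring
  have h2 : ∀ u v w : ℝ, Real.exp w * (u * Real.exp v) = u * Real.exp (v + w) := by
    intro u v w
    rw [Real.exp_add]
    ring
  rw [h1, h2]
  congr 2
  field_simp
  ring

/-- **Lévy's integral.** -/
lemma levy {a : ℝ} (ha : 0 < a) :
    ENNReal.ofReal (Real.exp (-a)) ≤ ∫⁻ x, ENNReal.ofReal (psi a x) ∂gaussianReal 0 1 := by
  rw [lintegral_gauss _ (measurable_psi a).ennreal_ofReal]
  set F : ℝ → ℝ≥0∞ := fun x => ENNReal.ofReal (ph x) * ENNReal.ofReal (psi a x) with hF
  have hsplit : ∫⁻ x, F x = (∫⁻ x in Ioi (0 : ℝ), F x) + ∫⁻ x in (Ioi (0 : ℝ))ᶜ, F x :=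
    (lintegral_add_compl F (measurableSet_Ioi (a := (0 : ℝ)))).symm
  have hneg : ∫⁻ x in Iio (0 : ℝ), F x = ∫⁻ x in Ioi (0 : ℝ), F x := by
    rw [← lintegral_indicator measurableSet_Iio, ← lintegral_indicator measurableSet_Ioi,
      ← lintegral_neg_eq_self (fun x => (Iio (0 : ℝ)).indicator F x)]
    refine lintegral_congr fun x => ?_
    by_cases hx : 0 < x
    · rw [indicator_of_mem (by simpa using hx), indicator_of_mem (by simpa using hx)]
      simp only [hF, ph_neg, psi_neg]
    · rw [indicator_of_notMem (by simpa using hx), indicator_of_notMem (by simpa using hx)]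
  have hle : ∫⁻ x in Iio (0 : ℝ), F x ≤ ∫⁻ x in (Ioi (0 : ℝ))ᶜ, F x :=
    lintegral_mono_set (by
      intro x hx
      simp only [mem_compl_iff, mem_Ioi, not_lt]
      exact le_of_lt hx)
  rw [hsplit]
  calc ENNReal.ofReal (Real.exp (-a)) = ENNReal.ofReal (Real.exp (-a)) *
        ((∫⁻ x in Ioi (0 : ℝ), ENNReal.ofReal (ph (x - a / x))) +
      ∫⁻ x in Ioi (0 : ℝ), ENNReal.ofReal (ph (x - a / x))) := by rw [half ha, mul_one]
    _ = (∫⁻ x in Ioi (0 : ℝ), F x) + ∫⁻ x in Ioi (0 : ℝ), F x := by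
        rw [mul_add, ← levy_half]
    _ ≤ (∫⁻ x in Ioi (0 : ℝ), F x) + ∫⁻ x in (Ioi (0 : ℝ))ᶜ, F x := by
        refine add_le_add le_rfl ?_
        rw [← hneg]
        exact hle

/-- The weight. -/
noncomputable def cc (m x : ℝ) : ℝ := Real.exp (-(m ^ 2) / 2) * Real.cosh (m * x)

lemma cc_pos (m x : ℝ) : 0 < cc m x := mul_pos (Real.exp_pos _) (Real.cosh_pos _)

lemma measurable_cc (m : ℝ) : Measurable (cc m) := by
  unfold cc
  exact (continuous_const.mul (Real.continuous_cosh.comp (by fun_prop))).measurable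

lemma cc_mono (m : ℝ) {x y : ℝ} (h : |x| ≤ |y|) : cc m x ≤ cc m y := by
  unfold cc
  have : |m * x| ≤ |m * y| := by
    rw [abs_mul, abs_mul]
    gcongr
  have := Real.cosh_le_cosh.mpr this
  gcongr

lemma ph_add (m x : ℝ) : ph (x - m) + ph (x + m) = 2 * (cc m x * ph x) := by
  unfold ph cc
  rw [Real.cosh_eq]
  have h1 : Real.exp (-((x - m) ^ 2) / 2) =
      Real.exp (-(m ^ 2) / 2) * Real.exp (-(x ^ 2) / 2) * Real.exp (m * x) := by
    rw [← Real.exp_add, ← Real.exp_add]
    congr 1
    ring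
  have h2 : Real.exp (-((x + m) ^ 2) / 2) =
      Real.exp (-(m ^ 2) / 2) * Real.exp (-(x ^ 2) / 2) * Real.exp (-(m * x)) := by
    rw [← Real.exp_add, ← Real.exp_add]
    congr 1
    ring
  rw [h1, h2]
  ring

lemma two_cancel {a b : ℝ≥0∞} (h : a + a ≤ b + b) : a ≤ b := by
  rw [← two_mul, ← two_mul] at h
  exact (ENNReal.mul_le_mul_iff_right (by norm_num) (by norm_num)).mp h

lemma sym_shift (f : ℝ → ℝ≥0∞) (hf : Measurable f) (heven : ∀ x, f (-x) = f x) (m : ℝ) :
    ∫⁻ x, f (m + x) ∂gaussianReal 0 1 =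
      ∫⁻ x, ENNReal.ofReal (cc m x) * f x ∂gaussianReal 0 1 := by
  have hph := continuous_ph.measurable
  have hfm : Measurable fun x => f (m + x) := hf.comp (measurable_const_add m)
  have hcf : Measurable fun x => ENNReal.ofReal (cc m x) * f x :=
    (measurable_cc m).ennreal_ofReal.mul hf
  rw [lintegral_gauss _ hfm, lintegral_gauss _ hcf]
  have h1 : ∫⁻ x, ENNReal.ofReal (ph x) * f (m + x) =
      ∫⁻ x, ENNReal.ofReal (ph (x - m)) * f x := by
    rw [← lintegral_sub_right_eq_self (fun x => ENNReal.ofReal (ph x) * f (m + x)) m]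
    refine lintegral_congr fun x => ?_
    rw [add_sub_cancel]
  have h2 : ∫⁻ x, ENNReal.ofReal (ph (x - m)) * f x =
      ∫⁻ x, ENNReal.ofReal (ph (x + m)) * f x := by
    rw [← lintegral_neg_eq_self (fun x => ENNReal.ofReal (ph (x - m)) * f x)]
    refine lintegral_congr fun x => ?_
    rw [heven, ← ph_neg]
    congr 3
    ring
  have hmm : Measurable fun x => ENNReal.ofReal (ph (x - m)) * f x :=
    ((hph.comp (measurable_sub_const m)).ennreal_ofReal).mul hf
  have hmm2 : Measurable fun x => ENNReal.ofReal (ph x) * (ENNReal.ofReal (cc m x) * f x) :=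
    hph.ennreal_ofReal.mul ((measurable_cc m).ennreal_ofReal.mul hf)
  have h3 : (∫⁻ x, ENNReal.ofReal (ph (x - m)) * f x) +
      (∫⁻ x, ENNReal.ofReal (ph (x - m)) * f x) =
      (∫⁻ x, ENNReal.ofReal (ph x) * (ENNReal.ofReal (cc m x) * f x)) +
      ∫⁻ x, ENNReal.ofReal (ph x) * (ENNReal.ofReal (cc m x) * f x) := by
    nth_rewrite 2 [h2]
    rw [← lintegral_add_left hmm, ← lintegral_add_left hmm2]
    refine lintegral_congr fun x => ?_
    rw [← add_mul, ← ENNReal.ofReal_add (ph_pos _).le (ph_pos _).le, ph_add, ← add_mul,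
      ← ENNReal.ofReal_add (ph_pos _).le (ph_pos _).le,
      ← mul_assoc (ENNReal.ofReal (ph x + ph x)),
      ← ENNReal.ofReal_mul (add_pos (ph_pos _) (ph_pos _)).le]
    congr 2
    ring
  rw [h1]
  exact le_antisymm (two_cancel h3.le) (two_cancel h3.ge)

lemma lintegral_cc (m : ℝ) : ∫⁻ x, ENNReal.ofReal (cc m x) ∂gaussianReal 0 1 = 1 := by
  have := sym_shift (fun _ => 1) measurable_const (fun _ => rfl) m
  simp only [mul_one, lintegral_one, measure_univ] at this
  exact this.symm

/-- Chebyshev's correlation inequality. -/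
lemma cheb (a m : ℝ) : ∫⁻ x, ENNReal.ofReal (psi a x) ∂gaussianReal 0 1 ≤
    ∫⁻ x, ENNReal.ofReal (cc m x) * ENNReal.ofReal (psi a x) ∂gaussianReal 0 1 := by
  set γ := gaussianReal 0 1 with hγ
  have hp := (measurable_psi a).ennreal_ofReal
  have hc := (measurable_cc m).ennreal_ofReal
  have hpt : ∀ x y : ℝ, ENNReal.ofReal (psi a x) * ENNReal.ofReal (cc m y) +
      ENNReal.ofReal (cc m x) * ENNReal.ofReal (psi a y) ≤
      ENNReal.ofReal (cc m x) * ENNReal.ofReal (psi a x) +
      ENNReal.ofReal (cc m y) * ENNReal.ofReal (psi a y) := by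
    intro x y
    rw [← ENNReal.ofReal_mul (psi_nonneg _ _), ← ENNReal.ofReal_mul (cc_pos _ _).le,
      ← ENNReal.ofReal_mul (cc_pos _ _).le, ← ENNReal.ofReal_mul (cc_pos _ _).le,
      ← ENNReal.ofReal_add (mul_nonneg (psi_nonneg _ _) (cc_pos _ _).le)
        (mul_nonneg (cc_pos _ _).le (psi_nonneg _ _)),
      ← ENNReal.ofReal_add (mul_nonneg (cc_pos _ _).le (psi_nonneg _ _))
        (mul_nonneg (cc_pos _ _).le (psi_nonneg _ _))]
    apply ENNReal.ofReal_le_ofReal
    rcases le_total |x| |y| with h | h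
    · nlinarith [mul_nonneg (sub_nonneg.mpr (psi_mono a h)) (sub_nonneg.mpr (cc_mono m h))]
    · nlinarith [mul_nonneg (sub_nonneg.mpr (psi_mono a h)) (sub_nonneg.mpr (cc_mono m h))]
  apply two_cancel
  calc (∫⁻ x, ENNReal.ofReal (psi a x) ∂γ) + ∫⁻ x, ENNReal.ofReal (psi a x) ∂γ
      = ∫⁻ x, ∫⁻ y, (ENNReal.ofReal (psi a x) * ENNReal.ofReal (cc m y) +
          ENNReal.ofReal (cc m x) * ENNReal.ofReal (psi a y)) ∂γ ∂γ := by
        have h1 : ∀ x, ∫⁻ y, (ENNReal.ofReal (psi a x) * ENNReal.ofReal (cc m y) +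
            ENNReal.ofReal (cc m x) * ENNReal.ofReal (psi a y)) ∂γ =
            ENNReal.ofReal (psi a x) +
              ENNReal.ofReal (cc m x) * ∫⁻ y, ENNReal.ofReal (psi a y) ∂γ := by
          intro x
          rw [lintegral_add_left (hc.const_mul _), lintegral_const_mul _ hc,
            lintegral_const_mul _ hp, lintegral_cc, mul_one]
        simp_rw [h1]
        rw [lintegral_add_left hp, lintegral_mul_const _ hc, lintegral_cc, one_mul]
    _ ≤ ∫⁻ x, ∫⁻ y, (ENNReal.ofReal (cc m x) * ENNReal.ofReal (psi a x) +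
          ENNReal.ofReal (cc m y) * ENNReal.ofReal (psi a y)) ∂γ ∂γ :=
        lintegral_mono fun x => lintegral_mono fun y => hpt x y
    _ = (∫⁻ x, ENNReal.ofReal (cc m x) * ENNReal.ofReal (psi a x) ∂γ) +
          ∫⁻ x, ENNReal.ofReal (cc m x) * ENNReal.ofReal (psi a x) ∂γ := by
        have h1 : ∀ x, ∫⁻ y, (ENNReal.ofReal (cc m x) * ENNReal.ofReal (psi a x) +
            ENNReal.ofReal (cc m y) * ENNReal.ofReal (psi a y)) ∂γ =
            ENNReal.ofReal (cc m x) * ENNReal.ofReal (psi a x) +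
              ∫⁻ y, ENNReal.ofReal (cc m y) * ENNReal.ofReal (psi a y) ∂γ := by
          intro x
          rw [lintegral_add_left measurable_const, lintegral_const, measure_univ, mul_one]
        simp_rw [h1]
        have hcp : Measurable fun x => ENNReal.ofReal (cc m x) * ENNReal.ofReal (psi a x) :=
          hc.mul hp
        rw [lintegral_add_left hcp, lintegral_const, measure_univ, mul_one]

/-- **The one-dimensional bound.** -/
theorem one_d (m : ℝ) {l : ℝ} (hl : 0 < l) :
    ENNReal.ofReal (Real.exp (-Real.sqrt l)) ≤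
      ∫⁻ t, ENNReal.ofReal (Real.exp (-(l / (2 * (m + t) ^ 2)))) ∂gaussianReal 0 1 := by
  have ha : 0 < Real.sqrt l := Real.sqrt_pos.mpr hl
  calc ENNReal.ofReal (Real.exp (-Real.sqrt l))
      ≤ ∫⁻ x, ENNReal.ofReal (psi (Real.sqrt l) x) ∂gaussianReal 0 1 := levy ha
    _ ≤ ∫⁻ x, ENNReal.ofReal (cc m x) * ENNReal.ofReal (psi (Real.sqrt l) x) ∂gaussianReal 0 1 :=
        cheb _ m
    _ = ∫⁻ t, ENNReal.ofReal (psi (Real.sqrt l) (m + t)) ∂gaussianReal 0 1 :=
        (sym_shift _ (measurable_psi _).ennreal_ofReal (fun x => by rw [psi_neg]) m).symm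
    _ ≤ _ := by
        refine lintegral_mono fun t => ENNReal.ofReal_le_ofReal ?_
        unfold psi
        split_ifs
        · exact (Real.exp_pos _).le
        · rw [Real.sq_sqrt hl.le]

end Pool.Agent.U312.SV
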