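import Pool.Agent.U312.SV.Gau
import Pool.Agent.U312.SV.OneD

/-!
# The bound for one vector
-/

set_option autoImplicit false
open MeasureTheory Measure Set Metric Matrix ProbabilityTheory
open scoped ENNReal NNReal
open Pool.Agent.H892R2.Proj Pool.Agent.H992R2

namespace Pool.Agent.U312.SV

variable {n : ℕ}

/-- The squared length of `A⁻¹ z`. -/
noncomputable def iq (A : Sq n) (z : Fin n → ℝ) : ℝ :=
  ((Matrix.of A)⁻¹ *ᵥ z) ⬝ᵥ ((Matrix.of A)⁻¹ *ᵥ z)

lemma dot_self_nonneg {m : ℕ} (v : Fin m → ℝ) : 0 ≤ v ⬝ᵥ v :=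
  Finset.sum_nonneg fun i _ => mul_self_nonneg (v i)

lemma iq_nonneg (A : Sq n) (z : Fin n → ℝ) : 0 ≤ iq A z := dot_self_nonneg _

lemma measurable_iq {X : Type*} [MeasurableSpace X] {f : X → Sq n} {g : X → Fin n → ℝ}
    (hf : Measurable f) (hg : Measurable g) : Measurable fun x => iq (f x) (g x) := by
  have hb := measurable_newb' hf hg
  have hbb : Measurable fun x => newb (f x) (g x) ⬝ᵥ newb (f x) (g x) := by
    simp only [dotProduct]
    refine Finset.measurable_sum _ fun i _ => ?_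
    exact (measurable_pi_iff.mp hb i).mul (measurable_pi_iff.mp hb i)
  exact hbb

lemma measurable_expiq {X : Type*} [MeasurableSpace X] {f : X → Sq n} {g : X → Fin n → ℝ}
    (hf : Measurable f) (hg : Measurable g) (l : ℝ) :
    Measurable fun x => ENNReal.ofReal (Real.exp (-(l * iq (f x) (g x) / 2))) :=
  (Real.measurable_exp.comp
    ((((measurable_iq hf hg).const_mul l).div_const 2).neg)).ennreal_ofReal

/-- Left multiplication. -/
def lmul (Q : Matrix (Fin n) (Fin n) ℝ) (A : Sq n) : Sq n := fun i j => ∑ l, Q i l * A l j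

lemma of_lmul (Q : Matrix (Fin n) (Fin n) ℝ) (A : Sq n) :
    Matrix.of (lmul Q A) = Q * Matrix.of A := by
  ext i j
  simp only [lmul, Matrix.of_apply, Matrix.mul_apply]

lemma lmul_add (Q : Matrix (Fin n) (Fin n) ℝ) (A B : Sq n) :
    lmul Q (A + B) = lmul Q A + lmul Q B := by
  funext i j
  simp only [lmul, Pi.add_apply, mul_add, Finset.sum_add_distrib]

lemma iq_lmul (Q : Matrix (Fin n) (Fin n) ℝ) (hQ : Q * Q = 1) (A : Sq n) (z : Fin n → ℝ) :
    iq (lmul Q A) (Q *ᵥ z) = iq A z := by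
  have h1 : Q⁻¹ = Q := Matrix.inv_eq_right_inv hQ
  unfold iq
  rw [of_lmul, Matrix.mul_inv_rev, h1, Matrix.mulVec_mulVec, Matrix.mul_assoc, hQ, Matrix.mul_one]

lemma iq_smul (A : Sq n) (r : ℝ) (z : Fin n → ℝ) : iq A (r • z) = r ^ 2 * iq A z := by
  unfold iq
  rw [Matrix.mulVec_smul, smul_dotProduct, dotProduct_smul]
  simp only [smul_eq_mul]
  ring

/-- The law of a linear functional. -/
lemma gam_dot {m : ℕ} (ν : Fin (m + 1) → ℝ) (hν : ν ⬝ᵥ ν = 1) (f : ℝ → ℝ≥0∞)
    (hf : Measurable f) :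
    ∫⁻ g : Fin (m + 1) → ℝ, f (g ⬝ᵥ ν) ∂gam (Fin (m + 1)) = ∫⁻ t, f t ∂gaussianReal 0 1 := by
  set e0 : Fin (m + 1) → ℝ := Pi.single 0 1 with he0
  have he : e0 ⬝ᵥ e0 = 1 := by simp [he0]
  set Q := hh ν e0 with hQ
  have hQQ : Q * Q = 1 := hh_mul_self ν e0
  have hQt : Qᵀ = Q := hh_transpose ν e0
  have hQν : Q *ᵥ ν = e0 := hh_mulVec ν e0 (by rw [hν, he])
  have h1 : ∀ g : Fin (m + 1) → ℝ, g ⬝ᵥ ν = (Q *ᵥ g) 0 := by
    intro g
    have h2 : (Q *ᵥ g) 0 = (Q *ᵥ g) ⬝ᵥ e0 := by simp [he0]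
    rw [h2, ← hQν, Matrix.dotProduct_mulVec, ← Matrix.mulVec_transpose, hQt,
      Matrix.mulVec_mulVec, hQQ, Matrix.one_mulVec]
  simp_rw [h1]
  have hmp := mp_mulVec Q (by rw [hQt, hQQ])
  have hm : Measurable fun x : Fin (m + 1) → ℝ => f (x 0) := hf.comp (measurable_pi_apply 0)
  rw [hmp.lintegral_comp hm]
  exact (measurePreserving_eval (fun _ : Fin (m + 1) => gaussianReal 0 1) 0).lintegral_comp hf

/-- The estimate for the first vector of the basis. -/
lemma row0 {m : ℕ} (B : Sq (m + 1)) {l : ℝ} (hl : 0 < l) :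
    ENNReal.ofReal (Real.exp (-Real.sqrt l)) ≤
      ∫⁻ G : Sq (m + 1), ENNReal.ofReal (Real.exp (-(l * iq (B + G) (Pi.single 0 1) / 2)))
        ∂muM (m + 1) (m + 1) := by
  have e := (measurePreserving_piFinSuccAbove
    (fun _ : Fin (m + 1) => gam (Fin (m + 1))) 0).symm
  have hm : Measurable fun G : Sq (m + 1) =>
      ENNReal.ofReal (Real.exp (-(l * iq (B + G) (Pi.single 0 1) / 2))) :=
    measurable_expiq (measurable_const_add B) measurable_const l
  have hmu : muM (m + 1) (m + 1) = Measure.pi (fun _ : Fin (m + 1) => gam (Fin (m + 1))) := rfl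
  rw [hmu, ← e.lintegral_comp hm]
  have hm2 : Measurable fun z : (Fin (m + 1) → ℝ) × (Fin m → Fin (m + 1) → ℝ) =>
      ENNReal.ofReal (Real.exp (-(l * iq (B +
        (MeasurableEquiv.piFinSuccAbove (fun _ : Fin (m + 1) => Fin (m + 1) → ℝ) 0).symm z)
          (Pi.single 0 1) / 2))) :=
    hm.comp (MeasurableEquiv.piFinSuccAbove (fun _ : Fin (m + 1) => Fin (m + 1) → ℝ) 0).symm.measurable
  rw [lintegral_prod_symm' _ hm2]
  have key : ∀ rest : Fin m → Fin (m + 1) → ℝ, ENNReal.ofReal (Real.exp (-Real.sqrt l)) ≤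
      ∫⁻ g0 : Fin (m + 1) → ℝ, ENNReal.ofReal (Real.exp (-(l * iq (B +
        (MeasurableEquiv.piFinSuccAbove (fun _ : Fin (m + 1) => Fin (m + 1) → ℝ) 0).symm (g0, rest))
          (Pi.single 0 1) / 2))) ∂gam (Fin (m + 1)) := by
    intro rest
    obtain ⟨N, hN1, hN2⟩ := exists_compl (k := m) (d := 1) (fun j => B j.succ + rest j)
    set ν : Fin (m + 1) → ℝ := N 0 with hν
    have hνν : ν ⬝ᵥ ν = 1 := by rw [hν, hN1]; simp
    have hperp : ∀ j, (B j.succ + rest j) ⬝ᵥ ν = 0 := fun j => hN2 j 0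
    set f : ℝ → ℝ≥0∞ := fun t =>
      ENNReal.ofReal (Real.exp (-(l / (2 * (B 0 ⬝ᵥ ν + t) ^ 2)))) with hf
    have hfm : Measurable f := by
      rw [hf]
      fun_prop
    calc ENNReal.ofReal (Real.exp (-Real.sqrt l)) ≤ ∫⁻ t, f t ∂gaussianReal 0 1 :=
          one_d (B 0 ⬝ᵥ ν) hl
      _ = ∫⁻ g0 : Fin (m + 1) → ℝ, f (g0 ⬝ᵥ ν) ∂gam (Fin (m + 1)) := (gam_dot ν hνν f hfm).symm
      _ ≤ _ := by
        refine lintegral_mono fun g0 => ENNReal.ofReal_le_ofReal (Real.exp_le_exp.mpr ?_)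
        apply neg_le_neg
        set A : Sq (m + 1) := B +
          (MeasurableEquiv.piFinSuccAbove (fun _ : Fin (m + 1) => Fin (m + 1) → ℝ) 0).symm
            (g0, rest) with hA
        have hA0 : A 0 = B 0 + g0 := rfl
        have hAs : ∀ j : Fin m, A j.succ = B j.succ + rest j := fun j => rfl
        set t := B 0 ⬝ᵥ ν + g0 ⬝ᵥ ν with ht
        have hAt : A 0 ⬝ᵥ ν = t := by rw [hA0, add_dotProduct]
        have hAν : Matrix.of A *ᵥ ν = t • (Pi.single 0 1 : Fin (m + 1) → ℝ) := by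
          funext i
          refine Fin.cases ?_ (fun j => ?_) i
          · change A 0 ⬝ᵥ ν = _
            rw [hAt]
            simp
          · change A j.succ ⬝ᵥ ν = _
            rw [hAs, hperp]
            simp
        have hle : iq A (Pi.single 0 1) ≤ 1 / t ^ 2 := by
          by_cases hdet : (Matrix.of A).det = 0
          · have h0 : (Matrix.of A)⁻¹ = 0 := by
              rw [Matrix.inv_def, hdet]
              simp
            unfold iq
            rw [h0, Matrix.zero_mulVec, zero_dotProduct]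
            positivity
          · have hu : IsUnit (Matrix.of A).det := isUnit_iff_ne_zero.mpr hdet
            have h1 : (Matrix.of A)⁻¹ *ᵥ (t • (Pi.single 0 1 : Fin (m + 1) → ℝ)) = ν := by
              rw [← hAν, Matrix.mulVec_mulVec, Matrix.nonsing_inv_mul _ hu, Matrix.one_mulVec]
            have h2 : t ^ 2 * iq A (Pi.single 0 1) = 1 := by
              rw [← iq_smul]
              unfold iq
              rw [h1, hνν]
            have ht0 : t ≠ 0 := by
              intro h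
              rw [h] at h2
              simp at h2
            have h3 : iq A (Pi.single 0 1) = 1 / t ^ 2 := by
              rw [eq_div_iff (pow_ne_zero 2 ht0), mul_comm]
              exact h2
            rw [h3]
        calc l * iq A (Pi.single 0 1) / 2 ≤ l * (1 / t ^ 2) / 2 := by gcongr
          _ = l / (2 * t ^ 2) := by
              rw [mul_one_div, div_div, mul_comm (t ^ 2)]
  calc ENNReal.ofReal (Real.exp (-Real.sqrt l))
      = ∫⁻ _ : Fin m → Fin (m + 1) → ℝ, ENNReal.ofReal (Real.exp (-Real.sqrt l))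
          ∂(Measure.pi fun _ : Fin m => gam (Fin (m + 1))) := by
        rw [lintegral_const, measure_univ, mul_one]
    _ ≤ _ := lintegral_mono fun rest => key rest

/-- **The bound for one vector.** -/
theorem one_vec (B : Sq n) (z : Fin n → ℝ) {τ : ℝ} (hτ : 0 < τ) :
    ENNReal.ofReal (Real.exp (-(Real.sqrt τ * Real.sqrt (z ⬝ᵥ z)))) ≤
      ∫⁻ G : Sq n, ENNReal.ofReal (Real.exp (-(τ * iq (B + G) z / 2))) ∂muM n n := by
  by_cases hz : z = 0
  · subst hz
    have h1 : ∀ A : Sq n, iq A 0 = 0 := by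
      intro A
      unfold iq
      rw [Matrix.mulVec_zero, zero_dotProduct]
    simp [h1]
  · obtain ⟨m, rfl⟩ : ∃ m, n = m + 1 := by
      rcases n with _ | m
      · exact absurd (Subsingleton.elim z 0) hz
      · exact ⟨m, rfl⟩
    have hzz : 0 < z ⬝ᵥ z := by
      rcases (dot_self_nonneg z).lt_or_eq with h | h
      · exact h
      · exact absurd (dotProduct_self_eq_zero.mp h.symm) hz
    set r := Real.sqrt (z ⬝ᵥ z) with hr
    have hr0 : 0 < r := Real.sqrt_pos.mpr hzz
    have hr2 : r ^ 2 = z ⬝ᵥ z := Real.sq_sqrt hzz.le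
    set e0 : Fin (m + 1) → ℝ := Pi.single 0 1 with he0
    have he : e0 ⬝ᵥ e0 = 1 := by simp [he0]
    set Q := hh z (r • e0) with hQ
    have hQQ : Q * Q = 1 := hh_mul_self _ _
    have hQt : Qᵀ = Q := hh_transpose _ _
    have hQz : Q *ᵥ z = r • e0 := by
      refine hh_mulVec z (r • e0) ?_
      rw [smul_dotProduct, dotProduct_smul, he]
      simp only [smul_eq_mul]
      nlinarith
    have h1 : ∀ G : Sq (m + 1), iq (B + G) z = r ^ 2 * iq (lmul Q B + lmul Q G) e0 := by
      intro G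
      rw [← iq_lmul Q hQQ, lmul_add, hQz, iq_smul]
    simp_rw [h1]
    have hmp := mp_left_mul (k := m + 1) Q (by rw [hQt, hQQ])
    have hm : Measurable fun G : Sq (m + 1) =>
        ENNReal.ofReal (Real.exp (-((τ * r ^ 2) * iq (lmul Q B + G) e0 / 2))) :=
      measurable_expiq (measurable_const_add _) measurable_const _
    have h2 : ∫⁻ G : Sq (m + 1), ENNReal.ofReal (Real.exp (-(τ * (r ^ 2 *
        iq (lmul Q B + lmul Q G) e0) / 2))) ∂muM (m + 1) (m + 1) =
        ∫⁻ G : Sq (m + 1), ENNReal.ofReal (Real.exp (-((τ * r ^ 2) *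
          iq (lmul Q B + G) e0 / 2))) ∂muM (m + 1) (m + 1) := by
      rw [← hmp.lintegral_comp hm]
      refine lintegral_congr fun G => ?_
      rw [← mul_assoc]
      rfl
    rw [h2]
    have h3 : Real.sqrt (τ * r ^ 2) = Real.sqrt τ * r := by
      rw [Real.sqrt_mul hτ.le, Real.sqrt_sq hr0.le]
    have h4 := row0 (lmul Q B) (l := τ * r ^ 2) (by positivity)
    rw [h3] at h4
    exact h4

end Pool.Agent.U312.SV
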