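import Pool.Agent.U312.SV.Dens
import Pool.Agent.H892R2.Proj.Defs

/-!
# Averages over the orthogonal group
-/

set_option autoImplicit false
open MeasureTheory Measure Set Metric Matrix
open scoped ENNReal NNReal
open Pool.Agent.H892R2.Proj

namespace Pool.Agent.U312.SV

variable {n : ℕ}

/-- The scalar product of matrices. -/
def ip (M B : Matrix (Fin n) (Fin n) ℝ) : ℝ := ∑ i, ∑ j, M i j * B i j

/-- The average of `exp ⟨M Q, B⟩` over the orthogonal group. -/
noncomputable def av (B M : Matrix (Fin n) (Fin n) ℝ) : ℝ≥0∞ :=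
  ∫⁻ Q : O n, ENNReal.ofReal (Real.exp (ip (M * Q.1) B)) ∂haarO n

lemma av_mul_orth (B M : Matrix (Fin n) (Fin n) ℝ) (R : O n) : av B (M * R.1) = av B M := by
  unfold av
  have h1 : ∀ Q : O n, M * R.1 * Q.1 = M * (R * Q).1 := by
    intro Q
    rw [Matrix.mul_assoc]
    rfl
  simp_rw [h1]
  exact lintegral_mul_left_eq_self
    (fun Q : O n => ENNReal.ofReal (Real.exp (ip (M * Q.1) B))) R

lemma measurable_joint (B : Matrix (Fin n) (Fin n) ℝ) :
    Measurable fun z : Sq n × O n =>
      ENNReal.ofReal (Real.exp (ip (Matrix.of z.1 * z.2.1) B)) := by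
  have h0 : ∀ i j : Fin n, Measurable fun Q : O n => Q.1 i j := by
    intro i j
    have h1 : Continuous fun Q : O n => Q.1 i j :=
      (continuous_apply_apply i j).comp continuous_subtype_val
    exact h1.measurable
  have h1 : Measurable fun z : Sq n × O n => ip (Matrix.of z.1 * z.2.1) B := by
    unfold ip
    simp only [Matrix.mul_apply, Matrix.of_apply]
    refine Finset.measurable_sum _ fun i _ => Finset.measurable_sum _ fun j _ => ?_
    refine Measurable.mul_const ?_ _
    refine Finset.measurable_sum _ fun l _ => ?_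
    exact Measurable.mul (by fun_prop) ((h0 l j).comp measurable_snd)
  exact (Real.measurable_exp.comp h1).ennreal_ofReal

lemma measurable_right (B N : Matrix (Fin n) (Fin n) ℝ) : Measurable fun Q : O n =>
    ENNReal.ofReal (Real.exp (ip (N * Q.1) B)) := by
  have h2 : Measurable fun Q : O n => ((fun i j => N i j : Sq n), Q) :=
    measurable_const.prodMk measurable_id
  have h3 := (measurable_joint B).comp h2
  have h4 : Matrix.of (fun i j => N i j : Sq n) = N := rfl
  simp only [Function.comp_def, h4] at h3
  exact h3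

lemma measurable_av (B : Matrix (Fin n) (Fin n) ℝ) :
    Measurable fun A : Sq n => av B (Matrix.of A) :=
  (measurable_joint B).lintegral_prod_right'

/-- Two square roots of the same positive definite matrix have the same average. -/
lemma av_eq_of_mul_transpose (B X Y : Matrix (Fin n) (Fin n) ℝ) (h : X * Xᵀ = Y * Yᵀ)
    (hY : Y.det ≠ 0) : av B X = av B Y := by
  have hu : IsUnit Y.det := isUnit_iff_ne_zero.mpr hY
  have hut : IsUnit Yᵀ.det := by rwa [Matrix.det_transpose]
  set R := Y⁻¹ * X with hR
  have hRR : R * Rᵀ = 1 := by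
    rw [hR, Matrix.transpose_mul, Matrix.mul_assoc, ← Matrix.mul_assoc X, h,
      Matrix.transpose_nonsing_inv, Matrix.mul_assoc Y, Matrix.mul_nonsing_inv _ hut,
      Matrix.mul_one, Matrix.nonsing_inv_mul _ hu]
  have hRm : R ∈ Matrix.orthogonalGroup (Fin n) ℝ := by
    rw [Matrix.mem_orthogonalGroup_iff]
    exact hRR
  have hX : X = Y * R := by
    rw [hR, ← Matrix.mul_assoc, Matrix.mul_nonsing_inv _ hu, Matrix.one_mul]
  rw [hX]
  exact av_mul_orth B Y ⟨R, hRm⟩

/-- Reflection in a coordinate. -/
lemma refl_mem (i : Fin n) :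
    Matrix.diagonal (Function.update (1 : Fin n → ℝ) i (-1)) ∈
      Matrix.orthogonalGroup (Fin n) ℝ := by
  rw [Matrix.mem_orthogonalGroup_iff]
  rw [Matrix.diagonal_transpose, Matrix.diagonal_mul_diagonal]
  rw [← Matrix.diagonal_one]
  congr 1
  funext j
  by_cases h : j = i
  · subst h; simp
  · simp [Function.update_of_ne h]

/-- Shrinking one coordinate decreases the average. -/
lemma av_shrink_one (B M : Matrix (Fin n) (Fin n) ℝ) (i : Fin n) {θ : ℝ} (h0 : 0 ≤ θ)
    (h1 : θ ≤ 1) : av B (M * Matrix.diagonal (Function.update (1 : Fin n → ℝ) i θ)) ≤ av B M := by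
  set J : Matrix (Fin n) (Fin n) ℝ := Matrix.diagonal (Function.update (1 : Fin n → ℝ) i (-1))
    with hJ
  have hD : Matrix.diagonal (Function.update (1 : Fin n → ℝ) i θ) =
      ((1 + θ) / 2) • (1 : Matrix (Fin n) (Fin n) ℝ) + ((1 - θ) / 2) • J := by
    rw [hJ, ← Matrix.diagonal_one, ← Matrix.diagonal_smul, ← Matrix.diagonal_smul,
      Matrix.diagonal_add]
    congr 1
    funext j
    by_cases h : j = i
    · subst h; simp; ring
    · simp [Function.update_of_ne h]; ring
  have hJav : av B (M * J) = av B M := av_mul_orth B M ⟨J, refl_mem i⟩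
  have hlin : ∀ Q : O n, ip (M * Matrix.diagonal (Function.update (1 : Fin n → ℝ) i θ) * Q.1) B =
      ((1 + θ) / 2) * ip (M * Q.1) B + ((1 - θ) / 2) * ip (M * J * Q.1) B := by
    intro Q
    rw [hD, Matrix.mul_add, Matrix.add_mul]
    simp only [Matrix.mul_smul, Matrix.smul_mul, Matrix.mul_one]
    unfold ip
    simp only [Matrix.add_apply, Matrix.smul_apply, smul_eq_mul, add_mul, Finset.sum_add_distrib,
      Finset.mul_sum]
    congr 1 <;> refine Finset.sum_congr rfl fun i _ => Finset.sum_congr rfl fun j _ => by ring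
  have hm := measurable_right (n := n) B
  calc av B (M * Matrix.diagonal (Function.update (1 : Fin n → ℝ) i θ))
      ≤ ∫⁻ Q : O n, (ENNReal.ofReal ((1 + θ) / 2) * ENNReal.ofReal (Real.exp (ip (M * Q.1) B)) +
          ENNReal.ofReal ((1 - θ) / 2) * ENNReal.ofReal (Real.exp (ip (M * J * Q.1) B)))
            ∂haarO n := by
        refine lintegral_mono fun Q => ?_
        rw [hlin Q, ← ENNReal.ofReal_mul (by linarith), ← ENNReal.ofReal_mul (by linarith),
          ← ENNReal.ofReal_add (mul_nonneg (by linarith) (Real.exp_pos _).le)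
            (mul_nonneg (by linarith) (Real.exp_pos _).le)]
        apply ENNReal.ofReal_le_ofReal
        have hc := convexOn_exp.2 (mem_univ (ip (M * Q.1) B)) (mem_univ (ip (M * J * Q.1) B))
          (by linarith : 0 ≤ (1 + θ) / 2) (by linarith : 0 ≤ (1 - θ) / 2) (by ring)
        simpa [smul_eq_mul] using hc
    _ = ENNReal.ofReal ((1 + θ) / 2) * av B M + ENNReal.ofReal ((1 - θ) / 2) * av B (M * J) := by
        rw [lintegral_add_left ((hm M).const_mul _), lintegral_const_mul _ (hm M),
          lintegral_const_mul _ (hm (M * J))]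
        rfl
    _ = av B M := by
        rw [hJav, ← add_mul, ← ENNReal.ofReal_add (by linarith) (by linarith)]
        have : (1 + θ) / 2 + (1 - θ) / 2 = 1 := by ring
        rw [this, ENNReal.ofReal_one, one_mul]

/-- Shrinking the coordinates decreases the average. -/
lemma av_shrink (B M : Matrix (Fin n) (Fin n) ℝ) (θ : Fin n → ℝ) (h0 : ∀ i, 0 ≤ θ i)
    (h1 : ∀ i, θ i ≤ 1) : av B (M * Matrix.diagonal θ) ≤ av B M := by
  classical
  have key : ∀ s : Finset (Fin n),
      av B (M * Matrix.diagonal (fun i => if i ∈ s then θ i else 1)) ≤ av B M := by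
    intro s
    induction s using Finset.induction_on with
    | empty => simp
    | insert a s ha ih =>
      have h2 : Matrix.diagonal (fun i => if i ∈ insert a s then θ i else 1) =
          Matrix.diagonal (fun i => if i ∈ s then θ i else 1) *
            Matrix.diagonal (Function.update (1 : Fin n → ℝ) a (θ a)) := by
        rw [Matrix.diagonal_mul_diagonal]
        congr 1
        funext j
        by_cases hj : j = a
        · subst hj; simp [ha]
        · simp [Finset.mem_insert, hj, Function.update_of_ne hj]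
      rw [h2, ← Matrix.mul_assoc]
      exact (av_shrink_one B _ a (h0 a) (h1 a)).trans ih
  have := key Finset.univ
  simpa using this

end Pool.Agent.U312.SV
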