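import Mathlib

/-!
# Polar coordinates for functions of the square of the norm
-/

set_option autoImplicit false
open MeasureTheory Measure Set Metric
open scoped ENNReal NNReal

namespace Pool.Agent.U312.SV

/-- Polar coordinates, nonnegative functions of the norm. -/
theorem lintegral_norm {E : Type*} [NormedAddCommGroup E] [NormedSpace ℝ E] [Nontrivial E]
    [FiniteDimensional ℝ E] [MeasurableSpace E] [BorelSpace E] (μ : Measure E)
    [μ.IsAddHaarMeasure] (f : ℝ → ℝ≥0∞) (hf : Measurable f) :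
    ∫⁻ x, f ‖x‖ ∂μ = μ.toSphere univ *
      ∫⁻ y in Ioi (0 : ℝ), ENNReal.ofReal (y ^ (Module.finrank ℝ E - 1)) * f y := by
  have h1 : ∫⁻ x, f ‖x‖ ∂μ = ∫⁻ x : ({(0)}ᶜ : Set E), f ‖x.1‖ ∂(μ.comap (↑)) := by
    rw [lintegral_subtype_comap (measurableSet_singleton _).compl fun x ↦ f (‖x‖),
        restrict_compl_singleton]
  have h2 : ∫⁻ x : ({(0)}ᶜ : Set E), f ‖x.1‖ ∂(μ.comap (↑)) =
      ∫⁻ x, f x.2 ∂μ.toSphere.prod (.volumeIoiPow (Module.finrank ℝ E - 1)) := by
    have := μ.measurePreserving_homeomorphUnitSphereProd.lintegral_comp_emb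
        (Homeomorph.measurableEmbedding _) (fun x => f x.2)
    simpa using this
  rw [h1, h2]
  have hfm : Measurable fun x : (Ioi (0 : ℝ)) => f x := hf.comp measurable_subtype_coe
  rw [lintegral_prod (fun x : (sphere (0 : E) 1) × (Ioi (0 : ℝ)) => f x.2)
    (hfm.comp measurable_snd).aemeasurable]
  simp only [lintegral_const]
  rw [mul_comm]
  congr 1
  rw [Measure.volumeIoiPow, lintegral_withDensity_eq_lintegral_mul _ (by fun_prop) hfm]
  exact lintegral_subtype_comap measurableSet_Ioi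
    (fun a => ENNReal.ofReal (a ^ (Module.finrank ℝ E - 1)) * f a)

/-- The constant of `lintegral_dot`. -/
noncomputable def cst (d : ℕ) : ℝ≥0∞ :=
  (volume : Measure (EuclideanSpace ℝ (Fin d))).toSphere univ * 2⁻¹

theorem lintegral_dot {d : ℕ} (hd : 1 ≤ d) (f : ℝ → ℝ≥0∞) (hf : Measurable f) :
    ∫⁻ y : Fin d → ℝ, f (y ⬝ᵥ y) =
      cst d * ∫⁻ r in Ioi (0 : ℝ), ENNReal.ofReal (r ^ ((d : ℝ) / 2 - 1)) * f r := by
  obtain ⟨d, rfl⟩ : ∃ e, d = e + 1 := ⟨d - 1, by omega⟩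
  have h1 := (PiLp.volume_preserving_ofLp (Fin (d + 1))).lintegral_comp
    (f := fun y : Fin (d + 1) → ℝ => f (y ⬝ᵥ y)) (hf.comp (by
      simp only [dotProduct]; fun_prop))
  rw [← h1]
  have h2 : ∀ x : EuclideanSpace ℝ (Fin (d + 1)), f (x.ofLp ⬝ᵥ x.ofLp) =
      (fun t => f (t ^ 2)) ‖x‖ := by
    intro x
    simp only
    rw [EuclideanSpace.norm_sq_eq]
    simp only [dotProduct, Real.norm_eq_abs, sq_abs]
    simp only [sq]
  simp_rw [h2]
  rw [lintegral_norm volume (fun t => f (t ^ 2)) (by fun_prop)]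
  unfold cst
  rw [mul_assoc]
  congr 1
  have himg : (fun t : ℝ => t ^ 2) '' Ioi 0 = Ioi 0 := by
    ext y
    simp only [mem_image, mem_Ioi]
    constructor
    · rintro ⟨x, hx, rfl⟩; positivity
    · intro hy
      exact ⟨Real.sqrt y, Real.sqrt_pos.mpr hy, Real.sq_sqrt hy.le⟩
  have h3 := lintegral_image_eq_lintegral_abs_deriv_mul (s := Ioi (0 : ℝ))
    (f := fun t : ℝ => t ^ 2) (f' := fun t => 2 * t) measurableSet_Ioi
    (fun x _ => by
      have := (hasDerivAt_pow 2 x).hasDerivWithinAt (s := Ioi (0 : ℝ))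
      simpa using this)
    (by
      intro x hx y hy hxy
      simp only [mem_Ioi] at hx hy
      exact (pow_left_inj₀ hx.le hy.le two_ne_zero).mp hxy)
    (fun r => ENNReal.ofReal (r ^ (((d + 1 : ℕ) : ℝ) / 2 - 1)) * f r)
  rw [himg] at h3
  rw [h3]
  simp only [finrank_euclideanSpace, Fintype.card_fin, Nat.add_sub_cancel]
  rw [← lintegral_const_mul _ (by fun_prop)]
  refine setLIntegral_congr_fun measurableSet_Ioi fun t ht => ?_
  simp only [mem_Ioi] at ht
  rw [← mul_assoc, ← mul_assoc]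
  congr 1
  rw [mul_assoc, ← ENNReal.ofReal_mul (abs_nonneg _), abs_of_pos (by positivity : 0 < 2 * t)]
  have h4 : 2 * t * (t ^ 2) ^ (((d + 1 : ℕ) : ℝ) / 2 - 1) = 2 * t ^ d := by
    rw [← Real.rpow_natCast t 2, ← Real.rpow_mul ht.le]
    push_cast
    rw [show (2 : ℝ) * (((d : ℝ) + 1) / 2 - 1) = (d : ℝ) - 1 by ring]
    rw [Real.rpow_sub_one ht.ne', Real.rpow_natCast]
    field_simp
  rw [h4, ENNReal.ofReal_mul (by norm_num), ← mul_assoc, ENNReal.ofReal_ofNat,
    ENNReal.inv_mul_cancel (by norm_num) (by norm_num), one_mul]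

end Pool.Agent.U312.SV
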