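import Pool.Agent.U312.SV.Polar

/-!
# Integration of one more row
-/

set_option autoImplicit false
open MeasureTheory Measure Set Metric Matrix
open scoped ENNReal NNReal

namespace Pool.Agent.U312.SV

/-- Gram matrix of the rows. -/
def gram {k m : ℕ} (A : Fin k → Fin m → ℝ) : Matrix (Fin k) (Fin k) ℝ :=
  Matrix.of fun i j => A i ⬝ᵥ A j

/-- Orthonormal vectors orthogonal to given vectors. -/
theorem exists_compl {k d : ℕ} (A : Fin k → Fin (k + d) → ℝ) :
    ∃ N : Fin d → Fin (k + d) → ℝ, (∀ i j, N i ⬝ᵥ N j = if i = j then 1 else 0) ∧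
      ∀ i j, A i ⬝ᵥ N j = 0 := by
  classical
  set a : Fin k → EuclideanSpace ℝ (Fin (k + d)) := fun i => WithLp.toLp 2 (A i) with ha
  set S := Submodule.span ℝ (Set.range a) with hS
  have h1 : Module.finrank ℝ S ≤ k := by
    have := finrank_range_le_card (R := ℝ) a
    simpa [Set.finrank] using this
  have h2 : Module.finrank ℝ S + Module.finrank ℝ Sᗮ = k + d := by
    rw [Submodule.finrank_add_finrank_orthogonal]
    simp
  have h3 : d ≤ Module.finrank ℝ Sᗮ := by omega
  set b := stdOrthonormalBasis ℝ Sᗮ with hb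
  have hin : ∀ x y : EuclideanSpace ℝ (Fin (k + d)), x.ofLp ⬝ᵥ y.ofLp = inner ℝ x y := by
    intro x y
    simp only [PiLp.inner_apply, dotProduct, RCLike.inner_apply, conj_trivial]
    exact Finset.sum_congr rfl fun i _ => mul_comm _ _
  refine ⟨fun j => ((b (Fin.castLE h3 j) : Sᗮ) : EuclideanSpace ℝ (Fin (k + d))).ofLp, ?_, ?_⟩
  · intro i j
    rw [hin]
    have h4 := orthonormal_iff_ite.mp b.orthonormal (Fin.castLE h3 i) (Fin.castLE h3 j)
    rw [Submodule.coe_inner] at h4
    rw [h4]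
    by_cases hij : i = j
    · simp [hij]
    · rw [if_neg hij, if_neg]
      intro h
      exact hij (Fin.castLE_injective h3 h)
  · intro i j
    have h5 : A i = (a i).ofLp := rfl
    rw [h5, hin]
    have h6 : a i ∈ S := Submodule.subset_span ⟨i, rfl⟩
    exact (Submodule.mem_orthogonal S _).mp (b (Fin.castLE h3 j)).2 (a i) h6

/-- Splitting the coordinates. -/
theorem lintegral_split {k d : ℕ} (F : (Fin (k + d) → ℝ) → ℝ≥0∞) (hF : Measurable F) :
    ∫⁻ y, F y = ∫⁻ w : Fin k → ℝ, ∫⁻ u : Fin d → ℝ, F (Fin.append w u) := by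
  have e1 := volume_measurePreserving_piCongrLeft (fun _ : Fin (k + d) => ℝ) finSumFinEquiv
  have e2 := (volume_measurePreserving_sumPiEquivProdPi (fun _ : Fin k ⊕ Fin d => ℝ)).symm
  have e3 := e1.comp e2
  have h1 := e3.lintegral_comp hF
  have h2 : Measurable (fun z => F ((⇑(MeasurableEquiv.piCongrLeft (fun _ => ℝ) finSumFinEquiv) ∘
      ⇑(MeasurableEquiv.sumPiEquivProdPi fun _ => ℝ).symm) z)) := hF.comp e3.measurable
  rw [← h1, volume_eq_prod, lintegral_prod _ h2.aemeasurable]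
  refine lintegral_congr fun w => lintegral_congr fun u => ?_
  congr 1
  funext i
  simp only [Function.comp_apply]
  refine Fin.addCases (fun i => ?_) (fun i => ?_) i
  · rw [Fin.append_left, ← finSumFinEquiv_apply_left, MeasurableEquiv.coe_piCongrLeft,
      Equiv.piCongrLeft_apply_apply]
    rfl
  · rw [Fin.append_right, ← finSumFinEquiv_apply_right, MeasurableEquiv.coe_piCongrLeft,
      Equiv.piCongrLeft_apply_apply]
    rfl

theorem cst_ne_top (d : ℕ) : cst d ≠ ∞ := by
  unfold cst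
  exact ENNReal.mul_ne_top (measure_ne_top _ _) (by simp)

/-- **One more row.** -/
theorem row {k d : ℕ} (hd : 1 ≤ d) (A : Fin k → Fin (k + d) → ℝ) (hA : 0 < (gram A).det)
    (F : (Fin k → ℝ) → ℝ → ℝ≥0∞) (hF : Measurable fun z : (Fin k → ℝ) × ℝ => F z.1 z.2) :
    ∫⁻ a : Fin (k + d) → ℝ, F (fun i => A i ⬝ᵥ a) (a ⬝ᵥ a) =
      cst d * ENNReal.ofReal ((Real.sqrt (gram A).det)⁻¹) *
        ∫⁻ w : Fin k → ℝ, ∫⁻ r in Ioi (0 : ℝ), ENNReal.ofReal (r ^ ((d : ℝ) / 2 - 1)) *
          F w (w ⬝ᵥ ((gram A)⁻¹ *ᵥ w) + r) := by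
  classical
  obtain ⟨N, hN1, hN2⟩ := exists_compl (d := d) A
  set W := gram A with hW
  set R : Matrix (Fin k ⊕ Fin d) (Fin (k + d)) ℝ := Matrix.of (Sum.elim A N) with hR
  set M : Matrix (Fin (k + d)) (Fin (k + d)) ℝ := R.submatrix finSumFinEquiv.symm id with hM
  have hRR : R * R.transpose = Matrix.fromBlocks W 0 0 (1 : Matrix (Fin d) (Fin d) ℝ) := by
    ext i j
    rw [Matrix.mul_apply]
    rcases i with i | i <;> rcases j with j | j
    · simp [hR, hW, gram, dotProduct]
    · simpa [hR, dotProduct] using hN2 i j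
    · have := hN2 j i
      rw [dotProduct_comm] at this
      simpa [hR, dotProduct] using this
    · have := hN1 i j
      simpa [hR, dotProduct, Matrix.one_apply] using this
  have hMM : M * M.transpose = (R * R.transpose).submatrix finSumFinEquiv.symm
      finSumFinEquiv.symm := by
    rw [hM, Matrix.transpose_submatrix]
    ext i j
    simp [Matrix.mul_apply]
  have hdet2 : M.det ^ 2 = W.det := by
    have h1 : (M * M.transpose).det = W.det := by
      rw [hMM, Matrix.det_submatrix_equiv_self, hRR, Matrix.det_fromBlocks_zero₁₂,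
        Matrix.det_one, mul_one]
    rw [Matrix.det_mul, Matrix.det_transpose] at h1
    rw [sq, h1]
  have hdet0 : M.det ≠ 0 := by
    intro h
    rw [h] at hdet2
    simp at hdet2
    exact hA.ne hdet2
  have habs : |M.det| = Real.sqrt W.det := by
    rw [← hdet2, Real.sqrt_sq_eq_abs]
  -- the coordinates
  have hco1 : ∀ (a : Fin (k + d) → ℝ) (i : Fin k), A i ⬝ᵥ a = (M *ᵥ a) (Fin.castAdd d i) := by
    intro a i
    simp only [Matrix.mulVec, hM, hR, Matrix.submatrix_apply, id_eq, Matrix.of_apply,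
      finSumFinEquiv_symm_apply_castAdd, Sum.elim_inl, dotProduct]
  have hco2 : ∀ (a : Fin (k + d) → ℝ) (j : Fin d), N j ⬝ᵥ a = (M *ᵥ a) (Fin.natAdd k j) := by
    intro a i
    simp only [Matrix.mulVec, hM, hR, Matrix.submatrix_apply, id_eq, Matrix.of_apply,
      finSumFinEquiv_symm_apply_natAdd, Sum.elim_inr, dotProduct]
  have hWu : IsUnit W.det := isUnit_iff_ne_zero.mpr hA.ne'
  have hWt : W.transpose = W := by
    ext i j
    simp only [Matrix.transpose_apply, hW, gram, Matrix.of_apply]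
    exact dotProduct_comm _ _
  have hnorm : ∀ a : Fin (k + d) → ℝ, a ⬝ᵥ a =
      (fun i => A i ⬝ᵥ a) ⬝ᵥ (W⁻¹ *ᵥ (fun i => A i ⬝ᵥ a)) +
        (fun j => N j ⬝ᵥ a) ⬝ᵥ (fun j => N j ⬝ᵥ a) := by
    intro a
    set w : Fin k → ℝ := fun i => A i ⬝ᵥ a with hw
    set u : Fin d → ℝ := fun j => N j ⬝ᵥ a with hu
    set t := W⁻¹ *ᵥ w with ht
    have hWt' : W *ᵥ t = w := by
      rw [ht, Matrix.mulVec_mulVec, Matrix.mul_nonsing_inv _ hWu, Matrix.one_mulVec]
    set b : Fin (k + d) → ℝ := ∑ i, t i • A i with hb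
    set c : Fin (k + d) → ℝ := ∑ j, u j • N j with hc
    have hAb : ∀ i, A i ⬝ᵥ b = w i := by
      intro i
      rw [hb, dotProduct_sum]
      have : (W *ᵥ t) i = w i := by rw [hWt']
      rw [← this]
      simp only [Matrix.mulVec, dotProduct_smul, smul_eq_mul]
      rw [dotProduct]
      refine Finset.sum_congr rfl fun j _ => ?_
      simp only [hW, gram, Matrix.of_apply]
      ring
    have hAc : ∀ i, A i ⬝ᵥ c = 0 := by
      intro i
      rw [hc, dotProduct_sum]
      refine Finset.sum_eq_zero fun j _ => ?_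
      rw [dotProduct_smul, hN2, smul_zero]
    have hNb : ∀ j, N j ⬝ᵥ b = 0 := by
      intro j
      rw [hb, dotProduct_sum]
      refine Finset.sum_eq_zero fun i _ => ?_
      rw [dotProduct_smul, dotProduct_comm, hN2, smul_zero]
    have hNc : ∀ j, N j ⬝ᵥ c = u j := by
      intro j
      rw [hc, dotProduct_sum]
      simp only [dotProduct_smul, hN1, smul_eq_mul]
      simp
    have hsum : a = b + c := by
      have h1 : M *ᵥ (a - (b + c)) = 0 := by
        funext i
        refine Fin.addCases (fun i => ?_) (fun i => ?_) i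
        · rw [← hco1, dotProduct_sub, dotProduct_add, hAb, hAc]
          simp [hw]
        · rw [← hco2, dotProduct_sub, dotProduct_add, hNb, hNc]
          simp [hu]
      have h2 := Matrix.eq_zero_of_mulVec_eq_zero hdet0 h1
      exact sub_eq_zero.mp h2
    have hab : a ⬝ᵥ b = w ⬝ᵥ t := by
      rw [hb, dotProduct_sum]
      simp only [dotProduct_smul, smul_eq_mul]
      rw [dotProduct]
      refine Finset.sum_congr rfl fun j _ => ?_
      rw [dotProduct_comm a, mul_comm]
    have hac : a ⬝ᵥ c = u ⬝ᵥ u := by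
      rw [hc, dotProduct_sum]
      simp only [dotProduct_smul, smul_eq_mul]
      rw [dotProduct]
      refine Finset.sum_congr rfl fun j _ => ?_
      rw [dotProduct_comm a]
    calc a ⬝ᵥ a = a ⬝ᵥ (b + c) := by rw [← hsum]
      _ = w ⬝ᵥ t + u ⬝ᵥ u := by rw [dotProduct_add, hab, hac]
  -- change of variables
  set G : (Fin (k + d) → ℝ) → ℝ≥0∞ := fun y =>
    F (fun i => y (Fin.castAdd d i)) ((fun i => y (Fin.castAdd d i)) ⬝ᵥ
      (W⁻¹ *ᵥ (fun i => y (Fin.castAdd d i))) +
        (fun j => y (Fin.natAdd k j)) ⬝ᵥ (fun j => y (Fin.natAdd k j))) with hG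
  have hGm : Measurable G := by
    have h1 : Measurable fun y : Fin (k + d) → ℝ => ((fun i => y (Fin.castAdd d i)),
        ((fun i => y (Fin.castAdd d i)) ⬝ᵥ
      (W⁻¹ *ᵥ (fun i => y (Fin.castAdd d i))) +
        (fun j => y (Fin.natAdd k j)) ⬝ᵥ (fun j => y (Fin.natAdd k j)))) := by
      simp only [Matrix.mulVec, dotProduct]
      fun_prop
    exact hF.comp h1
  have hFG : ∀ a : Fin (k + d) → ℝ, F (fun i => A i ⬝ᵥ a) (a ⬝ᵥ a) = G (M *ᵥ a) := by
    intro a
    rw [hnorm a]
    simp only [hG, hco1, hco2]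
  simp_rw [hFG]
  have hmap := Real.map_matrix_volume_pi_eq_smul_volume_pi hdet0
  have hMm : Measurable fun a : Fin (k + d) → ℝ => M *ᵥ a := by
    refine measurable_pi_iff.mpr fun i => ?_
    simp only [Matrix.mulVec, dotProduct]
    fun_prop
  have h1 : ∫⁻ a, G (M *ᵥ a) = ENNReal.ofReal ((Real.sqrt W.det)⁻¹) * ∫⁻ y, G y := by
    rw [← lintegral_map hGm hMm]
    have : (fun a : Fin (k + d) → ℝ => M *ᵥ a) = (Matrix.toLin' M) := by
      funext a; simp
    rw [this, hmap, lintegral_smul_measure, abs_inv, habs]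
    rfl
  rw [h1, lintegral_split G hGm, mul_assoc, mul_left_comm]
  congr 1
  rw [← lintegral_const_mul']
  · refine lintegral_congr fun w => ?_
    have h2 : ∀ u : Fin d → ℝ, G (Fin.append w u) = F w (w ⬝ᵥ (W⁻¹ *ᵥ w) + u ⬝ᵥ u) := by
      intro u
      simp only [hG, Fin.append_left, Fin.append_right]
    simp_rw [h2]
    have h3 : Measurable fun r : ℝ => (w, w ⬝ᵥ (W⁻¹ *ᵥ w) + r) := by fun_prop
    exact lintegral_dot hd (fun r => F w (w ⬝ᵥ (W⁻¹ *ᵥ w) + r)) (hF.comp h3)
  · exact cst_ne_top d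

end Pool.Agent.U312.SV
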